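import Mathlib

namespace Pool.Agent.H.MP_d7d3dc_an

open Set

/-- The convex hull of a compact set in a finite-dimensional space is compact. -/
theorem isCompact_convexHull_fd {E : Type*} [NormedAddCommGroup E] [NormedSpace ℝ E]
    [FiniteDimensional ℝ E] {A : Set E} (hA : IsCompact A) : IsCompact (convexHull ℝ A) := by
  set n := Module.finrank ℝ E + 1 with hn
  set F : (Fin n → ℝ) × (Fin n → E) → E := fun p => ∑ i, p.1 i • p.2 i with hF
  have hFc : Continuous F := by
    rw [hF]; fun_prop
  have hK : IsCompact ((stdSimplex ℝ (Fin n)) ×ˢ (Set.pi univ fun _ : Fin n => A)) :=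
    (isCompact_stdSimplex ℝ (Fin n)).prod (isCompact_univ_pi fun _ => hA)
  have himg : convexHull ℝ A = F '' ((stdSimplex ℝ (Fin n)) ×ˢ (Set.pi univ fun _ : Fin n => A)) := by
    apply Subset.antisymm
    · intro x hx
      obtain ⟨ι, hι, z, w, hz, hai, hw, hw1, hwz⟩ := eq_pos_convex_span_of_mem_convexHull hx
      have hcard : Fintype.card ι ≤ Fintype.card (Fin n) := by
        rw [Fintype.card_fin]
        calc Fintype.card ι ≤ Module.finrank ℝ (vectorSpan ℝ (Set.range z)) + 1 :=
              hai.card_le_finrank_succ
          _ ≤ n := by
            rw [hn]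
            gcongr
            exact Submodule.finrank_le _
      obtain ⟨e⟩ := Function.Embedding.nonempty_of_card_le hcard
      have hne : Nonempty ι := by
        by_contra h
        rw [not_nonempty_iff] at h
        simp at hw1
      obtain ⟨i0⟩ := hne
      refine ⟨(Function.extend e w 0, Function.extend e z (fun _ => z i0)), ⟨⟨?_, ?_⟩, ?_⟩, ?_⟩
      · intro j
        by_cases hj : ∃ i, e i = j
        · obtain ⟨i, rfl⟩ := hj
          simp only [e.injective.extend_apply]
          exact (hw i).le
        · simp [Function.extend_apply' _ _ _ hj]
      · rw [← hw1]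
        symm
        apply Fintype.sum_of_injective e e.injective
        · intro j hj
          have hj' : ¬ ∃ i, e i = j := by simpa using hj
          simp only [Function.extend_apply' _ _ _ hj']
          rfl
        · intro i
          simp only [e.injective.extend_apply]
      · intro j _
        by_cases hj : ∃ i, e i = j
        · obtain ⟨i, rfl⟩ := hj
          simp only [e.injective.extend_apply]
          exact hz ⟨i, rfl⟩
        · simp only [Function.extend_apply' _ _ _ hj]
          exact hz ⟨i0, rfl⟩
      · rw [← hwz]
        symm
        apply Fintype.sum_of_injective e e.injective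
        · intro j hj
          have hj' : ¬ ∃ i, e i = j := by simpa using hj
          simp only [Function.extend_apply' _ _ _ hj']
          simp
        · intro i
          simp only [e.injective.extend_apply]
    · rintro _ ⟨⟨w, z⟩, ⟨⟨hw, hw1⟩, hz⟩, rfl⟩
      simp only [hF]
      apply (convex_convexHull ℝ A).sum_mem
      · intro i _; exact hw i
      · exact hw1
      · intro i _
        exact subset_convexHull ℝ A (hz i (mem_univ i))
  rw [himg]
  exact hK.image hFc

end Pool.Agent.H.MP_d7d3dc_an
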