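import Pool.Agent.H.MP_d7d3dc_an.Model

open Set Metric Module
open scoped Pointwise

namespace Pool.Agent.H.MP_d7d3dc_an

/-- Entries of the grid matrices. -/
noncomputable def gridMat {m : ℕ} (M : Fin m → Fin m → Fin (2 * m ^ 3 + 1)) (j k : Fin m) : ℝ :=
  (((M j k : ℕ) : ℝ) - (m : ℝ) ^ 3) / (m : ℝ) ^ 2

/-- The family of test bodies. -/
def LBody {m : ℕ} (p : (Fin (m ^ 2) → Fin m → Bool) × (Fin m → Fin m → Fin (2 * m ^ 3 + 1))) :
    Set (EuclideanSpace ℝ (Fin m)) :=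
  {y | ∃ x ∈ KBody p.1, ∀ j, y j = 2 * ∑ k, gridMat p.2 j k * x k}

/-- The points `e_1, …, e_m, x_1, …, x_N`. -/
noncomputable def pts {m N : ℕ} (x : Fin N → EuclideanSpace ℝ (Fin m)) :
    Fin m ⊕ Fin N → EuclideanSpace ℝ (Fin m) :=
  Sum.elim (fun k => EuclideanSpace.single k 1) x

/-- The symmetrised family of points. -/
noncomputable def symPts {m N : ℕ} (x : Fin N → EuclideanSpace ℝ (Fin m)) :
    (Fin m ⊕ Fin N) ⊕ (Fin m ⊕ Fin N) → EuclideanSpace ℝ (Fin m) :=
  Sum.elim (pts x) (fun i => - pts x i)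

theorem norm_pts_le {m N : ℕ} {x : Fin N → EuclideanSpace ℝ (Fin m)} (hx : ∀ j, ‖x j‖ ≤ 1)
    (i : Fin m ⊕ Fin N) : ‖pts x i‖ ≤ 1 := by
  rcases i with k | j
  · simp [pts]
  · exact hx j

theorem norm_symPts_le {m N : ℕ} {x : Fin N → EuclideanSpace ℝ (Fin m)} (hx : ∀ j, ‖x j‖ ≤ 1)
    (i : (Fin m ⊕ Fin N) ⊕ (Fin m ⊕ Fin N)) : ‖symPts x i‖ ≤ 1 := by
  rcases i with k | j
  · exact norm_pts_le hx k
  · simp only [symPts, Sum.elim_inr, norm_neg]
    exact norm_pts_le hx j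

theorem core {m N : ℕ} (hm : 0 < m) {x : Fin N → EuclideanSpace ℝ (Fin m)}
    (hx : ∀ j, ‖x j‖ ≤ 1)
    {Z : Type} [NormedAddCommGroup Z] [NormedSpace ℝ Z] [FiniteDimensional ℝ Z]
    (e : EuclideanSpace ℝ (Fin m) ≃ₗ[ℝ] Z)
    (he : ∀ (y : EuclideanSpace ℝ (Fin m)) (c : ℝ), 0 ≤ c →
      (‖e y‖ ≤ c ↔ ∀ i, |inner ℝ (pts x i) y| ≤ c))
    {Y : Type} [NormedAddCommGroup Y] [NormedSpace ℝ Y] [FiniteDimensional ℝ Y]
    (hY : finrank ℝ Y = m) (hn : numIndex Y = 1) (T : Z ≃L[ℝ] Y) {r : ℝ}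
    (hr : ‖(T : Z →L[ℝ] Y)‖ * ‖(T.symm : Y →L[ℝ] Z)‖ ≤ r) (hrm : r ≤ m) :
    ∃ p : (Fin (m ^ 2) → Fin m → Bool) × (Fin m → Fin m → Fin (2 * m ^ 3 + 1)),
      (∀ j, x j ∈ LBody p) ∧ LBody p ⊆ (3 * r) • convexHull ℝ (range (symPts x)) := by
  classical
  have hYnt : Nontrivial Y := by
    rw [← finrank_pos_iff (R := ℝ), hY]; exact hm
  have hmR : (0 : ℝ) < m := by exact_mod_cast hm
  have hmR1 : (1 : ℝ) ≤ m := by exact_mod_cast hm
  obtain ⟨Ψ, σ, hK, hcube, hone⟩ := exists_model hn hY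
  set c₁ : ℝ := ‖(T.symm : Y →L[ℝ] Z)‖ with hc₁
  have hc₁pos : 0 < c₁ := by
    rw [hc₁, norm_pos_iff]
    intro h0
    obtain ⟨v, hv⟩ := exists_ne (0 : Y)
    have h1 : T.symm v = 0 := by
      have := congrArg (fun L : Y →L[ℝ] Z => L v) h0
      simpa using this
    exact hv (by simpa using h1)
  have hTpos : 0 < ‖(T : Z →L[ℝ] Y)‖ := by
    rw [norm_pos_iff]
    intro h0
    obtain ⟨v, hv⟩ := exists_ne (0 : Y)
    have h1 : T (T.symm v) = 0 := by
      have := congrArg (fun L : Z →L[ℝ] Y => L (T.symm v)) h0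
      simpa using this
    exact hv (by simpa using h1)
  have hrpos : 0 < r := lt_of_lt_of_le (mul_pos hTpos hc₁pos) hr
  -- the linear map R
  set R : (Fin m → ℝ) →ₗ[ℝ] EuclideanSpace ℝ (Fin m) :=
    { toFun := fun z => WithLp.toLp 2 (fun j => c₁ * Ψ z (T (e (EuclideanSpace.single j 1))))
      map_add' := by
        intro u v
        ext j
        simp [mul_add]
      map_smul' := by
        intro a u
        ext j
        simp; ring } with hR
  have hRj : ∀ z j, R z j = c₁ * Ψ z (T (e (EuclideanSpace.single j 1))) := by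
    intro z j; rfl
  have hRinner : ∀ z (y : EuclideanSpace ℝ (Fin m)), inner ℝ (R z) y = c₁ * Ψ z (T (e y)) := by
    intro z y
    have hy : y = ∑ j, y j • EuclideanSpace.single j (1 : ℝ) := by
      ext j
      simp [Finset.sum_apply, Pi.single_apply]
    have h1 : Ψ z (T (e y)) = ∑ j, y j * Ψ z (T (e (EuclideanSpace.single j 1))) := by
      conv_lhs => rw [hy]
      simp [map_sum, map_smul]
    rw [h1, PiLp.inner_apply, Finset.mul_sum]
    apply Finset.sum_congr rfl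
    intro j _
    rw [hRj]
    simp only [RCLike.inner_apply, conj_trivial]
    ring
  set C : Set (EuclideanSpace ℝ (Fin m)) := convexHull ℝ (range (symPts x)) with hC
  have hCclosed : IsClosed C := (Set.finite_range _).isClosed_convexHull ℝ
  -- (a)
  have ha : ∀ z, ‖Ψ z‖ ≤ 1 → r⁻¹ • R z ∈ C := by
    intro z hz
    by_contra hcon
    obtain ⟨f, u, hf1, hf2⟩ := geometric_hahn_banach_closed_point (convex_convexHull ℝ _) hCclosed hcon
    set y : EuclideanSpace ℝ (Fin m) := (InnerProductSpace.toDual ℝ (EuclideanSpace ℝ (Fin m))).symm f with hy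
    have hfy : ∀ v : EuclideanSpace ℝ (Fin m), f v = inner ℝ y v := by
      intro v; rw [hy, InnerProductSpace.toDual_symm_apply]
    have h1 : ∀ i, |inner ℝ (pts x i) y| < u := by
      intro i
      rw [abs_lt]
      have h2 := hf1 (pts x i) (subset_convexHull ℝ _ ⟨Sum.inl i, rfl⟩)
      have h3 := hf1 (- pts x i) (subset_convexHull ℝ _ ⟨Sum.inr i, rfl⟩)
      rw [hfy, real_inner_comm] at h2
      rw [hfy, inner_neg_right, real_inner_comm] at h3
      constructor <;> linarith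
    have hu0 : 0 < u := lt_of_le_of_lt (abs_nonneg _) (h1 (Sum.inl ⟨0, hm⟩))
    have h4 : ‖e y‖ ≤ u := (he y u hu0.le).2 (fun i => (h1 i).le)
    have h5 : inner ℝ (R z) y ≤ r * u := by
      rw [hRinner]
      calc c₁ * Ψ z (T (e y)) ≤ c₁ * ‖Ψ z (T (e y))‖ := by
            gcongr; exact le_abs_self _
        _ ≤ c₁ * (‖Ψ z‖ * ‖T (e y)‖) := by
            gcongr; exact (Ψ z).le_opNorm _
        _ ≤ c₁ * (1 * (‖(T : Z →L[ℝ] Y)‖ * ‖e y‖)) := by
            gcongr
            exact (T : Z →L[ℝ] Y).le_opNorm _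
        _ ≤ c₁ * (1 * (‖(T : Z →L[ℝ] Y)‖ * u)) := by gcongr
        _ = (‖(T : Z →L[ℝ] Y)‖ * c₁) * u := by ring
        _ ≤ r * u := by gcongr
    rw [hfy, inner_smul_right, real_inner_comm] at hf2
    have h6 : r⁻¹ * inner ℝ (R z) y ≤ u := by
      rw [inv_mul_le_iff₀ hrpos]; exact h5
    linarith
  -- (b)
  have hb : ∀ i, ∃ z, ‖Ψ z‖ ≤ 1 ∧ R z = pts x i := by
    intro i
    set g : StrongDual ℝ Y := LinearMap.toContinuousLinearMap
      (c₁⁻¹ • ((innerSL ℝ (pts x i)).toLinearMap ∘ₗ e.symm.toLinearMap ∘ₗ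
        T.symm.toLinearEquiv.toLinearMap)) with hg
    have hgapp : ∀ v, g v = c₁⁻¹ * inner ℝ (pts x i) (e.symm (T.symm v)) := by
      intro v; rfl
    refine ⟨Ψ.symm g, ?_, ?_⟩
    · rw [LinearEquiv.apply_symm_apply]
      refine ContinuousLinearMap.opNorm_le_bound _ zero_le_one ?_
      intro v
      rw [hgapp, norm_mul, norm_inv, Real.norm_of_nonneg hc₁pos.le, one_mul,
        inv_mul_le_iff₀ hc₁pos]
      have h1 := (he (e.symm (T.symm v)) ‖T.symm v‖ (norm_nonneg _)).1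
        (by rw [LinearEquiv.apply_symm_apply]) i
      calc ‖inner ℝ (pts x i) (e.symm (T.symm v))‖ ≤ ‖T.symm v‖ := h1
        _ ≤ c₁ * ‖v‖ := (T.symm : Y →L[ℝ] Z).le_opNorm v
    · ext j
      rw [hRj, LinearEquiv.apply_symm_apply, hgapp]
      rw [ContinuousLinearEquiv.symm_apply_apply, LinearEquiv.symm_apply_apply,
        mul_inv_cancel_left₀ hc₁pos.ne']
      simp [EuclideanSpace.inner_single_right]
  -- (c)
  have hCball : ∀ v ∈ C, ‖v‖ ≤ 1 := by
    intro v hv
    have : C ⊆ closedBall (0 : EuclideanSpace ℝ (Fin m)) 1 := by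
      apply convexHull_min _ (convex_closedBall 0 1)
      rintro _ ⟨i, rfl⟩
      simpa using norm_symPts_le hx i
    simpa using this hv
  have hc : ∀ j k, |R (Pi.single k 1) j| ≤ r := by
    intro j k
    have h1 := hCball _ (ha _ (hone k))
    rw [norm_smul, norm_inv, Real.norm_of_nonneg hrpos.le, inv_mul_le_iff₀ hrpos, mul_one] at h1
    calc |R (Pi.single k 1) j| = ‖R (Pi.single k 1) j‖ := rfl
      _ ≤ ‖R (Pi.single k 1)‖ := PiLp.norm_apply_le _ j
      _ ≤ r := h1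
  -- (d) rounding
  set ρ : Fin m → Fin m → ℤ := fun j k => round ((m : ℝ) ^ 2 * R (Pi.single k 1) j) with hρ
  have hρle : ∀ j k, |ρ j k| ≤ (m : ℤ) ^ 3 := by
    intro j k
    have h1 : |(m : ℝ) ^ 2 * R (Pi.single k 1) j| ≤ (m : ℝ) ^ 3 := by
      rw [abs_mul, abs_of_nonneg (by positivity)]
      calc (m : ℝ) ^ 2 * |R (Pi.single k 1) j| ≤ (m : ℝ) ^ 2 * m := by
            gcongr; exact (hc j k).trans hrm
        _ = (m : ℝ) ^ 3 := by ring
    have h2 : |((ρ j k : ℤ) : ℝ)| < (m : ℝ) ^ 3 + 1 := by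
      have h3 := abs_sub_round ((m : ℝ) ^ 2 * R (Pi.single k 1) j)
      have h4 : |((ρ j k : ℤ) : ℝ)| ≤ |(m : ℝ) ^ 2 * R (Pi.single k 1) j| + 1 / 2 := by
        have h5 : ((ρ j k : ℤ) : ℝ) = (m : ℝ) ^ 2 * R (Pi.single k 1) j -
          ((m : ℝ) ^ 2 * R (Pi.single k 1) j - (round ((m : ℝ) ^ 2 * R (Pi.single k 1) j) : ℤ)) := by
          simp [hρ]
        rw [h5]
        calc |_ - _| ≤ |(m : ℝ) ^ 2 * R (Pi.single k 1) j| + _ := abs_sub _ _
          _ ≤ _ := by gcongr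
      linarith
    have h6 : |ρ j k| < (m : ℤ) ^ 3 + 1 := by
      have : (((|ρ j k| : ℤ)) : ℝ) < (((m : ℤ) ^ 3 + 1 : ℤ) : ℝ) := by
        push_cast
        exact h2
      exact_mod_cast this
    linarith
  set M : Fin m → Fin m → Fin (2 * m ^ 3 + 1) := fun j k =>
    ⟨(ρ j k + (m : ℤ) ^ 3).toNat, by
      have h1 := hρle j k
      rw [abs_le] at h1
      have h2 : ρ j k + (m : ℤ) ^ 3 ≤ 2 * (m : ℤ) ^ 3 := by linarith [h1.2]
      have h3 : (ρ j k + (m : ℤ) ^ 3).toNat ≤ 2 * m ^ 3 := by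
        rw [Int.toNat_le]; push_cast; exact h2
      omega⟩ with hM
  have hgrid : ∀ j k, gridMat M j k = (ρ j k : ℝ) / (m : ℝ) ^ 2 := by
    intro j k
    have h1 := hρle j k
    rw [abs_le] at h1
    have h2 : 0 ≤ ρ j k + (m : ℤ) ^ 3 := by linarith [h1.1]
    have h3 : (((M j k : ℕ) : ℤ)) = ρ j k + (m : ℤ) ^ 3 := by
      simp only [hM]
      exact Int.toNat_of_nonneg h2
    have h4 : ((M j k : ℕ) : ℝ) = (ρ j k : ℝ) + (m : ℝ) ^ 3 := by
      have := congrArg (fun z : ℤ => (z : ℝ)) h3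
      push_cast at this
      exact this
    rw [gridMat, h4]
    congr 1
    ring
  have hround : ∀ j k, |gridMat M j k - R (Pi.single k 1) j| ≤ 1 / (2 * (m : ℝ) ^ 2) := by
    intro j k
    rw [hgrid]
    have h1 := abs_sub_round ((m : ℝ) ^ 2 * R (Pi.single k 1) j)
    have h2 : (ρ j k : ℝ) / (m : ℝ) ^ 2 - R (Pi.single k 1) j =
        -(((m : ℝ) ^ 2 * R (Pi.single k 1) j - (ρ j k : ℝ)) / (m : ℝ) ^ 2) := by
      field_simp; ring
    rw [h2, abs_neg, abs_div, abs_of_nonneg (by positivity : (0 : ℝ) ≤ (m : ℝ) ^ 2)]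
    calc |(m : ℝ) ^ 2 * R (Pi.single k 1) j - (ρ j k : ℝ)| / (m : ℝ) ^ 2 ≤
        (1 / 2) / (m : ℝ) ^ 2 := by gcongr
      _ = 1 / (2 * (m : ℝ) ^ 2) := by field_simp
  -- coordinates are bounded by the norm
  have hcoord : ∀ z k, |z k| ≤ ‖Ψ z‖ := by
    intro z k
    by_cases hz : z = 0
    · simp [hz]
    · have hpos : 0 < ‖Ψ z‖ := by
        rw [norm_pos_iff]; simpa using hz
      have h1 := hcube (‖Ψ z‖⁻¹ • z) (by
        rw [map_smul, norm_smul, norm_inv, norm_norm, inv_mul_cancel₀ hpos.ne']) k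
      rw [Pi.smul_apply, smul_eq_mul, abs_mul, abs_of_nonneg (inv_nonneg.2 hpos.le),
        inv_mul_le_iff₀ hpos, mul_one] at h1
      exact h1
  have hRsum : ∀ z j, R z j = ∑ k, R (Pi.single k 1) j * z k := by
    intro z j
    have hz : z = ∑ k, z k • (Pi.single k 1 : Fin m → ℝ) := by
      ext i; simp [Finset.sum_apply, Pi.single_apply]
    conv_lhs => rw [hz]
    rw [map_sum]
    simp only [map_smul, WithLp.ofLp_sum, Finset.sum_apply, PiLp.smul_apply, smul_eq_mul]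
    apply Finset.sum_congr rfl
    intro k _; ring
  -- the perturbation
  choose ze hze1 hze2 using fun j : Fin m => hb (Sum.inl j)
  set d : Fin m → (Fin m → ℝ) → ℝ := fun j z => ∑ k, (gridMat M j k - R (Pi.single k 1) j) * z k
    with hd
  have hdbound : ∀ j z, |d j z| ≤ 1 / (2 * (m : ℝ)) * ‖Ψ z‖ := by
    intro j z
    calc |d j z| ≤ ∑ k, |(gridMat M j k - R (Pi.single k 1) j) * z k| :=
          Finset.abs_sum_le_sum_abs _ _
      _ ≤ ∑ k : Fin m, 1 / (2 * (m : ℝ) ^ 2) * ‖Ψ z‖ := by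
          apply Finset.sum_le_sum
          intro k _
          rw [abs_mul]
          exact mul_le_mul (hround j k) (hcoord z k) (abs_nonneg _) (by positivity)
      _ = 1 / (2 * (m : ℝ)) * ‖Ψ z‖ := by
          rw [Finset.sum_const, Finset.card_univ, Fintype.card_fin, nsmul_eq_mul]
          field_simp
  set P : (Fin m → ℝ) →ₗ[ℝ] (Fin m → ℝ) :=
    { toFun := fun z => z + ∑ j, d j z • ze j
      map_add' := by
        intro u v
        have : ∀ j, d j (u + v) = d j u + d j v := by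
          intro j
          simp only [hd, Pi.add_apply, mul_add, Finset.sum_add_distrib]
        simp only [this, add_smul, Finset.sum_add_distrib]
        abel
      map_smul' := by
        intro a u
        have : ∀ j, d j (a • u) = a * d j u := by
          intro j
          simp only [hd, Pi.smul_apply, smul_eq_mul, Finset.mul_sum]
          apply Finset.sum_congr rfl
          intro k _; ring
        simp only [this, RingHom.id_apply, smul_add, Finset.smul_sum, smul_smul] } with hP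
  have hPapp : ∀ z, P z = z + ∑ j, d j z • ze j := fun z => rfl
  have hPdiff : ∀ z, ‖Ψ (∑ j, d j z • ze j)‖ ≤ 1 / 2 * ‖Ψ z‖ := by
    intro z
    rw [map_sum]
    calc ‖∑ j, Ψ (d j z • ze j)‖ ≤ ∑ j, ‖Ψ (d j z • ze j)‖ := norm_sum_le _ _
      _ ≤ ∑ j : Fin m, 1 / (2 * (m : ℝ)) * ‖Ψ z‖ := by
          apply Finset.sum_le_sum
          intro j _
          rw [map_smul, norm_smul]
          calc ‖d j z‖ * ‖Ψ (ze j)‖ ≤ (1 / (2 * (m : ℝ)) * ‖Ψ z‖) * 1 :=
                mul_le_mul (hdbound j z) (hze1 j) (norm_nonneg _) (by positivity)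
            _ = _ := mul_one _
      _ = 1 / 2 * ‖Ψ z‖ := by
          rw [Finset.sum_const, Finset.card_univ, Fintype.card_fin, nsmul_eq_mul]
          field_simp
  have hPlow : ∀ z, 1 / 2 * ‖Ψ z‖ ≤ ‖Ψ (P z)‖ := by
    intro z
    rw [hPapp, map_add]
    have h1 := norm_sub_le_norm_add (Ψ z) (Ψ (∑ j, d j z • ze j))
    have h2 := hPdiff z
    linarith
  have hPup : ∀ z, ‖Ψ (P z)‖ ≤ 3 / 2 * ‖Ψ z‖ := by
    intro z
    rw [hPapp, map_add]
    have h1 := norm_add_le (Ψ z) (Ψ (∑ j, d j z • ze j))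
    have h2 := hPdiff z
    linarith
  have hPinj : Function.Injective P := by
    rw [← LinearMap.ker_eq_bot, LinearMap.ker_eq_bot']
    intro z hz
    have h1 := hPlow z
    rw [hz, map_zero, norm_zero] at h1
    have h2 : ‖Ψ z‖ = 0 := le_antisymm (by linarith) (norm_nonneg _)
    rw [norm_eq_zero] at h2
    simpa using h2
  have hPsurj : Function.Surjective P := LinearMap.injective_iff_surjective.1 hPinj
  have hRP : ∀ z j, R (P z) j = ∑ k, gridMat M j k * z k := by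
    intro z j
    have h1 : R (P z) = R z + ∑ i, d i z • (EuclideanSpace.single i (1 : ℝ) : EuclideanSpace ℝ (Fin m)) := by
      rw [hPapp, map_add, map_sum]
      congr 1
      apply Finset.sum_congr rfl
      intro i _
      rw [map_smul, hze2 i]
      rfl
    rw [h1]
    have h2 : (R z + ∑ i, d i z • (EuclideanSpace.single i (1 : ℝ) : EuclideanSpace ℝ (Fin m))) j = R z j + d j z := by
      simp [Finset.sum_apply, Pi.single_apply]
    rw [h2, hRsum, hd, ← Finset.sum_add_distrib]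
    apply Finset.sum_congr rfl
    intro k _; ring
  refine ⟨(σ, M), ?_, ?_⟩
  · intro j
    obtain ⟨z, hz1, hz2⟩ := hb (Sum.inr j)
    obtain ⟨w, rfl⟩ := hPsurj z
    refine ⟨(1 / 2 : ℝ) • w, ?_, ?_⟩
    · rw [← hK, map_smul, norm_smul]
      have := hPlow w
      rw [Real.norm_of_nonneg (by norm_num)]
      linarith
    · intro i
      have h1 : x j i = R (P w) i := by
        have : pts x (Sum.inr j) = x j := rfl
        rw [hz2, this]
      rw [h1, hRP, Finset.mul_sum]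
      apply Finset.sum_congr rfl
      intro k _
      simp only [Pi.smul_apply, smul_eq_mul]
      ring
  · rintro y ⟨w, hw, hwy⟩
    rw [← hK] at hw
    have h1 : y = (2 : ℝ) • R (P w) := by
      ext j
      rw [hwy j, PiLp.smul_apply, hRP, smul_eq_mul]
    have h2 : ‖Ψ ((2 / 3 : ℝ) • P w)‖ ≤ 1 := by
      rw [map_smul, norm_smul, Real.norm_of_nonneg (by norm_num)]
      have := hPup w
      linarith
    have h3 := ha _ h2
    refine ⟨_, h3, ?_⟩
    simp only [map_smul, smul_smul]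
    rw [h1]
    congr 1
    field_simp

end Pool.Agent.H.MP_d7d3dc_an
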