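import Mathlib

/-!
Definitions for problem MP_d7d3dc_an: numerical radius, numerical index, Banach-Mazur distance,
and the quantity `D_m`.
-/

open scoped ENNReal

namespace Pool.Agent.H.MP_d7d3dc_an

/-- The numerical radius `v(T) = sup { |f(Tu)| : ‖u‖ = ‖f‖ = f(u) = 1 }` of a bounded operator. -/
noncomputable def numRadius {X : Type} [NormedAddCommGroup X] [NormedSpace ℝ X]
    (T : X →L[ℝ] X) : ℝ :=
  sSup {r : ℝ | ∃ (u : X) (f : StrongDual ℝ X), ‖u‖ = 1 ∧ ‖f‖ = 1 ∧ f u = 1 ∧ r = |f (T u)|}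

/-- The numerical index `n(X) = inf { v(T) : ‖T‖ = 1 }`. -/
noncomputable def numIndex (X : Type) [NormedAddCommGroup X] [NormedSpace ℝ X] : ℝ :=
  sInf {r : ℝ | ∃ T : X →L[ℝ] X, ‖T‖ = 1 ∧ r = numRadius T}

/-- The Banach-Mazur distance: the infimum of `‖T‖ * ‖T⁻¹‖` over linear homeomorphisms
`T : X → Y` (it is `∞` when there is none). -/
noncomputable def bmDist (X Y : Type) [NormedAddCommGroup X] [NormedSpace ℝ X]
    [NormedAddCommGroup Y] [NormedSpace ℝ Y] : ℝ≥0∞ :=
  ⨅ T : X ≃L[ℝ] Y, ENNReal.ofReal (‖(T : X →L[ℝ] Y)‖ * ‖(T.symm : Y →L[ℝ] X)‖)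

/-- An `m`-dimensional real normed space. -/
structure NSpace (m : ℕ) where
  /-- the underlying type -/
  carrier : Type
  /-- the norm -/
  [grp : NormedAddCommGroup carrier]
  /-- the linear structure -/
  [spc : NormedSpace ℝ carrier]
  /-- finite-dimensionality -/
  [fin : FiniteDimensional ℝ carrier]
  /-- the dimension is `m` -/
  finrank_eq : Module.finrank ℝ carrier = m

attribute [instance] NSpace.grp NSpace.spc NSpace.fin

/-- `D_m = sup_{X} inf_{Y, n(Y) = 1} d(X, Y)` over `m`-dimensional real normed spaces. -/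
noncomputable def maxDist (m : ℕ) : ℝ≥0∞ :=
  ⨆ X : NSpace m, ⨅ Y : NSpace m, ⨅ _ : numIndex Y.carrier = 1, bmDist X.carrier Y.carrier

end Pool.Agent.H.MP_d7d3dc_an
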