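import Mathlib

open Finset

namespace Pool.Agent.H.MP_d7d3dc_an

section Signs

variable {V : Type*} [NormedAddCommGroup V] [InnerProductSpace ℝ V]

theorem exists_signs {ι : Type*} [DecidableEq ι] (y : ι → V) (S : Finset ι) :
    ∃ η : ι → ℝ, (∀ k, η k = 1 ∨ η k = -1) ∧
      ‖∑ k ∈ S, η k • y k‖ ^ 2 ≤ ∑ k ∈ S, ‖y k‖ ^ 2 := by
  induction S using Finset.induction_on with
  | empty => exact ⟨fun _ => 1, fun _ => Or.inl rfl, by simp⟩
  | insert a S ha ih =>
    obtain ⟨η, hη, hle⟩ := ih
    set s : ℝ := if inner ℝ (y a) (∑ k ∈ S, η k • y k) ≤ 0 then 1 else -1 with hs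
    refine ⟨Function.update η a s, ?_, ?_⟩
    · intro k
      by_cases hk : k = a
      · subst hk
        rw [Function.update_self, hs]
        split_ifs
        · left; rfl
        · right; rfl
      · rw [Function.update_of_ne hk]; exact hη k
    · rw [Finset.sum_insert ha, Finset.sum_insert ha, Function.update_self]
      have h1 : ∑ k ∈ S, Function.update η a s k • y k = ∑ k ∈ S, η k • y k := by
        apply Finset.sum_congr rfl
        intro k hk
        rw [Function.update_of_ne]
        rintro rfl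
        exact ha hk
      rw [h1, norm_add_sq_real, inner_smul_left]
      have h2 : ‖s • y a‖ ^ 2 = ‖y a‖ ^ 2 := by
        rw [norm_smul, mul_pow]
        have : ‖s‖ ^ 2 = 1 := by
          rw [hs]; split_ifs <;> simp
        rw [this, one_mul]
      have h3 : s * inner ℝ (y a) (∑ k ∈ S, η k • y k) ≤ 0 := by
        rw [hs]
        split_ifs with h
        · linarith
        · push Not at h; linarith
      rw [h2]
      simp only [conj_trivial]
      linarith

end Signs

theorem sum_choose_le (m D : ℕ) : ∑ k ∈ Finset.Iic D, m.choose k ≤ (m + 1) ^ D := by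
  rw [add_pow]
  have : Finset.Iic D = Finset.range (D + 1) := by
    ext k; simp
  rw [this]
  apply Finset.sum_le_sum
  intro k hk
  have hk' : k ≤ D := by simpa [Nat.lt_succ_iff] using hk
  calc m.choose k ≤ m ^ k := Nat.choose_le_pow m k
    _ = m ^ k * 1 ^ (D - k) * 1 := by simp
    _ ≤ m ^ k * 1 ^ (D - k) * (D.choose k) := by
        apply Nat.mul_le_mul_left
        exact Nat.choose_pos hk'

/-- The Sauer-Shelah bound in the form we need. -/
theorem card_le_of_signs {V : Type*} [NormedAddCommGroup V] [InnerProductSpace ℝ V]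
    {ι : Type*} [DecidableEq ι] (U : Finset ι) {m : ℕ} (x : ι → V) (y : Fin m → V) {δ : ℝ}
    (hx : ∀ u ∈ U, ‖x u‖ ≤ 1) (hy : ∀ k, ‖y k‖ ≤ δ)
    (hpm : ∀ u ∈ U, ∀ k, inner ℝ (y k) (x u) = 1 ∨ inner ℝ (y k) (x u) = -1)
    (hinj : ∀ u ∈ U, ∀ u' ∈ U, (∀ k, inner ℝ (y k) (x u) = inner ℝ (y k) (x u')) → u = u') :
    Real.log (U.card) ≤ δ ^ 2 * Real.log (m + 1) := by
  classical
  set A : ι → Finset (Fin m) := fun u => Finset.univ.filter (fun k => inner ℝ (y k) (x u) = 1)
    with hA
  set 𝒜 : Finset (Finset (Fin m)) := U.image A with h𝒜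
  have hcard : 𝒜.card = U.card := by
    apply Finset.card_image_of_injOn
    intro u hu u' hu' huu
    apply hinj u hu u' hu'
    intro k
    have h1 : k ∈ A u ↔ k ∈ A u' := by
      have : A u = A u' := huu
      rw [this]
    simp only [hA, Finset.mem_filter, Finset.mem_univ, true_and] at h1
    rcases hpm u hu k with h2 | h2 <;> rcases hpm u' hu' k with h3 | h3
    · rw [h2, h3]
    · rw [h2, h3] at h1; norm_num at h1
    · rw [h2, h3] at h1; norm_num at h1
    · rw [h2, h3]
  by_cases hU : U = ∅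
  · subst hU
    simp only [Finset.card_empty, Nat.cast_zero, Real.log_zero]
    have : 0 ≤ Real.log ((m : ℝ) + 1) := Real.log_nonneg (by linarith [Nat.cast_nonneg (α := ℝ) m])
    positivity
  have hUne : U.Nonempty := Finset.nonempty_iff_ne_empty.2 hU
  have h𝒜ne : 𝒜.Nonempty := hUne.image A
  have hshne : 𝒜.shatterer.Nonempty := by
    refine ⟨∅, ?_⟩
    rw [Finset.mem_shatterer, Finset.shatters_empty]
    exact h𝒜ne
  obtain ⟨S, hS, hSD⟩ := Finset.exists_mem_eq_sup 𝒜.shatterer hshne Finset.card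
  have hSD' : 𝒜.vcDim = S.card := hSD
  rw [Finset.mem_shatterer] at hS
  -- size of a shattered set
  have hSle : (S.card : ℝ) ≤ δ ^ 2 := by
    obtain ⟨η, hη, hle⟩ := exists_signs y S
    obtain ⟨t, ht, hSt⟩ := hS (t := S.filter (fun k => η k = 1)) (Finset.filter_subset _ _)
    rw [h𝒜, Finset.mem_image] at ht
    obtain ⟨u, hu, rfl⟩ := ht
    have h1 : ∀ k ∈ S, inner ℝ (y k) (x u) = η k := by
      intro k hk
      have h2 : k ∈ S ∩ A u ↔ k ∈ S.filter (fun k => η k = 1) := by rw [hSt]
      simp only [Finset.mem_inter, hk, true_and, Finset.mem_filter, hA, Finset.mem_univ] at h2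
      rcases hpm u hu k with h3 | h3
      · rw [h3, eq_comm]; exact h2.1 h3
      · rcases hη k with h4 | h4
        · have := h2.2 h4
          rw [h3] at this; norm_num at this
        · rw [h3, h4]
    have h5 : inner ℝ (∑ k ∈ S, η k • y k) (x u) = S.card := by
      rw [sum_inner]
      have : ∀ k ∈ S, inner ℝ (η k • y k) (x u) = 1 := by
        intro k hk
        rw [inner_smul_left, h1 k hk]
        rcases hη k with h4 | h4 <;> simp [h4]
      rw [Finset.sum_congr rfl this]
      simp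
    have h6 : (S.card : ℝ) ≤ ‖∑ k ∈ S, η k • y k‖ := by
      calc (S.card : ℝ) = inner ℝ (∑ k ∈ S, η k • y k) (x u) := h5.symm
        _ ≤ ‖∑ k ∈ S, η k • y k‖ * ‖x u‖ := real_inner_le_norm _ _
        _ ≤ ‖∑ k ∈ S, η k • y k‖ * 1 := by gcongr; exact hx u hu
        _ = _ := mul_one _
    have h7 : ∑ k ∈ S, ‖y k‖ ^ 2 ≤ S.card * δ ^ 2 := by
      calc ∑ k ∈ S, ‖y k‖ ^ 2 ≤ ∑ k ∈ S, δ ^ 2 := by
            apply Finset.sum_le_sum
            intro k _
            exact pow_le_pow_left₀ (norm_nonneg _) (hy k) 2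
        _ = _ := by simp
    have h8 : (S.card : ℝ) ^ 2 ≤ S.card * δ ^ 2 := by
      calc (S.card : ℝ) ^ 2 ≤ ‖∑ k ∈ S, η k • y k‖ ^ 2 := by gcongr
        _ ≤ _ := hle
        _ ≤ _ := h7
    by_cases h9 : (S.card : ℝ) = 0
    · rw [h9]; positivity
    · have h10 : (0 : ℝ) < S.card := lt_of_le_of_ne (Nat.cast_nonneg _) (Ne.symm h9)
      rw [pow_two] at h8
      exact le_of_mul_le_mul_left h8 h10
  have h1 : U.card ≤ (m + 1) ^ S.card := by
    calc U.card = 𝒜.card := hcard.symm
      _ ≤ 𝒜.shatterer.card := Finset.card_le_card_shatterer 𝒜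
      _ ≤ ∑ k ∈ Finset.Iic 𝒜.vcDim, (Fintype.card (Fin m)).choose k :=
          Finset.card_shatterer_le_sum_vcDim
      _ = ∑ k ∈ Finset.Iic S.card, m.choose k := by rw [hSD', Fintype.card_fin]
      _ ≤ _ := sum_choose_le _ _
  have hUpos : (0 : ℝ) < U.card := by exact_mod_cast hUne.card_pos
  have h2 : Real.log (U.card) ≤ Real.log ((m + 1 : ℝ) ^ S.card) := by
    apply Real.log_le_log hUpos
    exact_mod_cast h1
  rw [Real.log_pow] at h2
  have h3 : 0 ≤ Real.log ((m : ℝ) + 1) := Real.log_nonneg (by linarith [Nat.cast_nonneg (α := ℝ) m])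
  calc Real.log (U.card) ≤ S.card * Real.log (m + 1) := h2
    _ ≤ δ ^ 2 * Real.log (m + 1) := by gcongr

/-- There is a sign vector with small inner product against each of `N` vectors of norm at most
one. -/
theorem exists_sign_vector {m : ℕ} {ι : Type*} [Fintype ι]
    (w : ι → EuclideanSpace ℝ (Fin m)) (hw : ∀ i, ‖w i‖ ≤ 1) (hN : 2 ≤ Fintype.card ι) :
    ∃ e : EuclideanSpace ℝ (Fin m), (∀ k, e k = 1 ∨ e k = -1) ∧
      ∀ i, inner ℝ e (w i) ≤ Real.sqrt (2 * Real.log (Fintype.card ι)) := by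
  classical
  set N : ℝ := (Fintype.card ι : ℝ) with hNdef
  have hN2 : (2 : ℝ) ≤ N := by rw [hNdef]; exact_mod_cast hN
  have hlogN : 0 < Real.log N := Real.log_pos (by linarith)
  set lam : ℝ := Real.sqrt (2 * Real.log N) with hlam
  have hlampos : 0 < lam := Real.sqrt_pos.2 (by linarith)
  have hlam2 : lam ^ 2 = 2 * Real.log N := Real.sq_sqrt (by linarith)
  set sg : Bool → ℝ := fun b => if b then 1 else -1 with hsg
  -- exponential moments
  have hmom : ∀ i, ∑ ε : Fin m → Bool, Real.exp (lam * ∑ k, sg (ε k) * w i k) ≤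
      2 ^ m * Real.exp (lam ^ 2 / 2) := by
    intro i
    have h1 : ∀ ε : Fin m → Bool, Real.exp (lam * ∑ k, sg (ε k) * w i k) =
        ∏ k, Real.exp (lam * (sg (ε k) * w i k)) := by
      intro ε
      rw [← Real.exp_sum, Finset.mul_sum]
    simp only [h1]
    have h2 : ∑ ε : Fin m → Bool, ∏ k, Real.exp (lam * (sg (ε k) * w i k)) =
        ∏ k, ∑ b : Bool, Real.exp (lam * (sg b * w i k)) := by
      rw [Finset.prod_univ_sum, Fintype.piFinset_univ]
    rw [h2]
    have h3 : ∀ k, ∑ b : Bool, Real.exp (lam * (sg b * w i k)) ≤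
        2 * Real.exp ((lam * w i k) ^ 2 / 2) := by
      intro k
      have h4 := Real.cosh_le_exp_half_sq (lam * w i k)
      rw [Real.cosh_eq] at h4
      rw [Fintype.sum_bool]
      have h5 : lam * (sg true * w i k) = lam * w i k := by simp [hsg]
      have h6 : lam * (sg false * w i k) = -(lam * w i k) := by simp [hsg]
      rw [h5, h6]
      linarith
    calc ∏ k, ∑ b : Bool, Real.exp (lam * (sg b * w i k))
        ≤ ∏ k, (2 * Real.exp ((lam * w i k) ^ 2 / 2)) := by
          apply Finset.prod_le_prod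
          · intro k _; positivity
          · intro k _; exact h3 k
      _ = 2 ^ m * Real.exp (∑ k, (lam * w i k) ^ 2 / 2) := by
          rw [Finset.prod_mul_distrib, Real.exp_sum]; simp
      _ ≤ 2 ^ m * Real.exp (lam ^ 2 / 2) := by
          gcongr
          have h7 : ∑ k, (lam * w i k) ^ 2 / 2 = lam ^ 2 / 2 * ‖w i‖ ^ 2 := by
            rw [EuclideanSpace.norm_sq_eq, Finset.mul_sum]
            apply Finset.sum_congr rfl
            intro k _
            rw [Real.norm_eq_abs, sq_abs]; ring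
          rw [h7]
          calc lam ^ 2 / 2 * ‖w i‖ ^ 2 ≤ lam ^ 2 / 2 * 1 := by
                gcongr
                exact pow_le_one₀ (norm_nonneg _) (hw i)
            _ = lam ^ 2 / 2 := mul_one _
  have htot : ∑ ε : Fin m → Bool, ∑ i, Real.exp (lam * ∑ k, sg (ε k) * w i k) ≤
      ∑ _ε : Fin m → Bool, N * Real.exp (lam ^ 2 / 2) := by
    rw [Finset.sum_comm]
    calc ∑ i, ∑ ε : Fin m → Bool, Real.exp (lam * ∑ k, sg (ε k) * w i k)
        ≤ ∑ _i : ι, 2 ^ m * Real.exp (lam ^ 2 / 2) := Finset.sum_le_sum fun i _ => hmom i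
      _ = _ := by
        simp only [Finset.sum_const, Finset.card_univ, nsmul_eq_mul, Fintype.card_fun,
          Fintype.card_bool, Fintype.card_fin]
        push_cast
        ring
  obtain ⟨ε, -, hε⟩ := Finset.exists_le_of_sum_le (s := Finset.univ) ⟨fun _ => true, Finset.mem_univ _⟩ htot
  refine ⟨WithLp.toLp 2 (fun k => sg (ε k)), ?_, ?_⟩
  · intro k
    simp only [hsg]
    split_ifs
    · left; rfl
    · right; rfl
  · intro i
    have h1 : Real.exp (lam * ∑ k, sg (ε k) * w i k) ≤ N * Real.exp (lam ^ 2 / 2) :=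
      le_trans (Finset.single_le_sum (f := fun i => Real.exp (lam * ∑ k, sg (ε k) * w i k))
        (fun _ _ => (Real.exp_pos _).le) (Finset.mem_univ i)) hε
    have h2 : N * Real.exp (lam ^ 2 / 2) = Real.exp (Real.log N + lam ^ 2 / 2) := by
      rw [Real.exp_add, Real.exp_log (by linarith)]
    rw [h2, Real.exp_le_exp] at h1
    have h3 : Real.log N + lam ^ 2 / 2 = lam * lam := by
      rw [← pow_two, hlam2]; ring
    rw [h3] at h1
    have h4 : ∑ k, sg (ε k) * w i k ≤ lam := le_of_mul_le_mul_left h1 hlampos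
    have h5 : inner ℝ (WithLp.toLp 2 (fun k => sg (ε k)) : EuclideanSpace ℝ (Fin m)) (w i) =
        ∑ k, sg (ε k) * w i k := by
      rw [PiLp.inner_apply]
      apply Finset.sum_congr rfl
      intro k _
      simp [mul_comm]
    rw [h5]
    exact h4

end Pool.Agent.H.MP_d7d3dc_an
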