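import Pool.Agent.H.MP_d7d3dc_an.Structure
import Pool.Agent.H.MP_d7d3dc_an.Rademacher

open Set Metric Module
open scoped ENNReal

namespace Pool.Agent.H.MP_d7d3dc_an

section OneSided

variable {X : Type} [NormedAddCommGroup X] [NormedSpace ℝ X] [FiniteDimensional ℝ X]

theorem le_of_extreme (φ : StrongDual ℝ X) {c : ℝ}
    (h : ∀ u ∈ (closedBall (0 : X) 1).extremePoints ℝ, φ u ≤ c) {x : X} (hx : ‖x‖ ≤ 1) :
    φ x ≤ c := by
  have hkm := closure_convexHull_extremePoints (isCompact_closedBall (0 : X) 1)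
    (convex_closedBall (0 : X) 1)
  have hxm : x ∈ closure (convexHull ℝ ((closedBall (0 : X) 1).extremePoints ℝ)) := by
    rw [hkm]; simpa using hx
  have hsub : closure (convexHull ℝ ((closedBall (0 : X) 1).extremePoints ℝ)) ⊆
      {y : X | φ y ≤ c} := by
    apply closure_minimal
    · apply convexHull_min
      · intro u hu; exact h u hu
      · exact (convex_Iic c).linear_preimage φ.toLinearMap
    · exact isClosed_le φ.continuous continuous_const
  exact hsub hxm

theorem le_mul_norm_of_extreme (φ : StrongDual ℝ X) {c : ℝ}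
    (h : ∀ u ∈ (closedBall (0 : X) 1).extremePoints ℝ, φ u ≤ c) (x : X) :
    φ x ≤ c * ‖x‖ := by
  by_cases hx : x = 0
  · simp [hx]
  · have hn : 0 < ‖x‖ := norm_pos_iff.2 hx
    have h1 := le_of_extreme φ h (x := ‖x‖⁻¹ • x) (by
      rw [norm_smul, norm_inv, norm_norm, inv_mul_cancel₀ hn.ne'])
    rw [map_smul, smul_eq_mul, inv_mul_le_iff₀ hn] at h1
    linarith

theorem norm_le_of_extreme_dual {y : X} {c : ℝ}
    (h : ∀ g ∈ (closedBall (0 : StrongDual ℝ X) 1).extremePoints ℝ, g y ≤ c) : ‖y‖ ≤ c := by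
  obtain ⟨g, hg, hgy⟩ := exists_dual_vector'' ℝ y
  have h1 := le_of_extreme (X := StrongDual ℝ X)
    (NormedSpace.inclusionInDoubleDual ℝ X y) (c := c) (fun g hg => h g hg) hg
  have h2 : (NormedSpace.inclusionInDoubleDual ℝ X y) g = g y := rfl
  rw [h2, hgy] at h1
  simpa using h1

end OneSided

variable {Y : Type} [NormedAddCommGroup Y] [NormedSpace ℝ Y] [FiniteDimensional ℝ Y]

theorem finite_extreme_dual [Nontrivial Y] (h : numIndex Y = 1) :
    ((closedBall (0 : StrongDual ℝ Y) 1).extremePoints ℝ).Finite := by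
  obtain ⟨b, hb⟩ := exists_basis_mem (V := Y) rfl (span_extreme (X := Y))
  have hfin : (Set.pi univ (fun _ : Fin (finrank ℝ Y) => ({1, -1} : Set ℝ))).Finite :=
    Set.Finite.pi (fun _ => Set.toFinite _)
  refine Set.Finite.of_injOn (f := fun g k => g (b k)) (t := _) ?_ ?_ hfin
  · intro g hg k _
    have := abs_eq_one_of_extreme h (hb k) hg
    rcases eq_or_eq_neg_of_abs_eq this with h1 | h1
    · left; exact h1
    · right; exact h1
  · intro g _ g' _ hgg
    have h1 : (g : Y →ₗ[ℝ] ℝ) = (g' : Y →ₗ[ℝ] ℝ) := b.ext fun k => congrFun hgg k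
    ext y
    exact congrArg (fun L : Y →ₗ[ℝ] ℝ => L y) h1

/-- The distance of a space of numerical index one to the Euclidean space. -/
theorem hilbert_bound (h : numIndex Y = 1) {m : ℕ} (hm0 : 0 < m) (hm : finrank ℝ Y = m)
    (T : Y ≃L[ℝ] EuclideanSpace ℝ (Fin m)) :
    (m : ℝ) ≤ 4 * (‖(T : Y →L[ℝ] EuclideanSpace ℝ (Fin m))‖ *
      ‖(T.symm : EuclideanSpace ℝ (Fin m) →L[ℝ] Y)‖) ^ 3 * Real.log (m + 1) := by
  classical
  have hYnt : Nontrivial Y := by
    rw [← finrank_pos_iff (R := ℝ), hm]; exact hm0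
  have hmR1 : (1 : ℝ) ≤ m := by exact_mod_cast hm0
  have hlogm : 0 < Real.log (m + 1) := Real.log_pos (by linarith)
  set a : ℝ := ‖(T : Y →L[ℝ] EuclideanSpace ℝ (Fin m))‖ with ha
  set b' : ℝ := ‖(T.symm : EuclideanSpace ℝ (Fin m) →L[ℝ] Y)‖ with hb'
  set δ : ℝ := a * b' with hδ
  have hδ1 : 1 ≤ δ := by
    have h1 : (1 : ℝ) = ‖ContinuousLinearMap.id ℝ Y‖ := ContinuousLinearMap.norm_id.symm
    have h2 : ContinuousLinearMap.id ℝ Y =
      (T.symm : EuclideanSpace ℝ (Fin m) →L[ℝ] Y).comp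
        (T : Y →L[ℝ] EuclideanSpace ℝ (Fin m)) := by
      ext v; simp
    rw [hδ, h1, h2, mul_comm]
    exact ContinuousLinearMap.opNorm_comp_le _ _
  have ha0 : 0 ≤ a := norm_nonneg _
  have hb0 : 0 ≤ b' := norm_nonneg _
  have hapos : 0 < a := by
    rcases ha0.lt_or_eq with h1 | h1
    · exact h1
    · rw [hδ, ← h1, zero_mul] at hδ1; linarith
  have hδpos : 0 < δ := by linarith
  set U : Finset Y := (finite_extreme h).toFinset with hU
  set G : Finset (StrongDual ℝ Y) := (finite_extreme_dual h).toFinset with hG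
  have hUmem : ∀ u, u ∈ U ↔ u ∈ (closedBall (0 : Y) 1).extremePoints ℝ := by
    intro u; rw [hU, Set.Finite.mem_toFinset]
  have hGmem : ∀ g, g ∈ G ↔ g ∈ (closedBall (0 : StrongDual ℝ Y) 1).extremePoints ℝ := by
    intro g; rw [hG, Set.Finite.mem_toFinset]
  have hUne : U.Nonempty := by
    obtain ⟨u, hu⟩ := extreme_nonempty (X := Y)
    exact ⟨u, (hUmem u).2 hu⟩
  have hGne : G.Nonempty := by
    obtain ⟨g, hg⟩ := extreme_nonempty (X := StrongDual ℝ Y)
    exact ⟨g, (hGmem g).2 hg⟩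
  have hpm : ∀ u ∈ U, ∀ g ∈ G, g u = 1 ∨ g u = -1 := by
    intro u hu g hg
    exact eq_or_eq_neg_of_abs_eq
      (abs_eq_one_of_extreme h ((hUmem u).1 hu) ((hGmem g).1 hg))
  -- the two families of vectors
  set x : Y → EuclideanSpace ℝ (Fin m) := fun u => a⁻¹ • T u with hx
  set y : StrongDual ℝ Y → EuclideanSpace ℝ (Fin m) := fun g =>
    a • (InnerProductSpace.toDual ℝ (EuclideanSpace ℝ (Fin m))).symm
      (g.comp (T.symm : EuclideanSpace ℝ (Fin m) →L[ℝ] Y)) with hy
  have hyin : ∀ g v, inner ℝ (y g) v = a * g (T.symm v) := by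
    intro g v
    simp only [hy]
    rw [inner_smul_left, InnerProductSpace.toDual_symm_apply]
    rfl
  have hxn : ∀ u ∈ U, ‖x u‖ ≤ 1 := by
    intro u hu
    have h1 : ‖u‖ ≤ 1 := by simpa using ((hUmem u).1 hu).1
    simp only [hx, norm_smul, norm_inv, Real.norm_of_nonneg ha0]
    rw [inv_mul_le_iff₀ hapos]
    calc ‖T u‖ ≤ a * ‖u‖ := (T : Y →L[ℝ] EuclideanSpace ℝ (Fin m)).le_opNorm u
      _ ≤ a * 1 := by gcongr
  have hyn : ∀ g ∈ G, ‖y g‖ ≤ δ := by
    intro g hg
    have h1 : ‖g‖ ≤ 1 := by simpa using ((hGmem g).1 hg).1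
    simp only [hy, norm_smul, Real.norm_of_nonneg ha0, LinearIsometryEquiv.norm_map]
    rw [hδ]
    gcongr
    calc ‖g.comp (T.symm : EuclideanSpace ℝ (Fin m) →L[ℝ] Y)‖ ≤ ‖g‖ * b' :=
          ContinuousLinearMap.opNorm_comp_le _ _
      _ ≤ 1 * b' := by gcongr
      _ = b' := one_mul _
  have hxy : ∀ g u, inner ℝ (y g) (x u) = g u := by
    intro g u
    rw [hyin]
    simp only [hx, map_smul, ContinuousLinearEquiv.symm_apply_apply, smul_eq_mul]
    field_simp
  -- the number of vertices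
  obtain ⟨gb, hgb⟩ := exists_basis_mem (V := StrongDual ℝ Y) (m := m) (by
    have := (LinearMap.toContinuousLinearMap (𝕜 := ℝ) (E := Y) (F' := ℝ)).finrank_eq
    rw [← this, ← hm]
    exact Subspace.dual_finrank_eq) (span_extreme (X := StrongDual ℝ Y))
  obtain ⟨ub, hub⟩ := exists_basis_mem (V := Y) hm (span_extreme (X := Y))
  have hUcard : Real.log U.card ≤ δ ^ 2 * Real.log (m + 1) := by
    refine card_le_of_signs U x (fun k => y (gb k)) hxn
      (fun k => hyn _ ((hGmem _).2 (hgb k))) ?_ ?_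
    · intro u hu k
      rw [hxy]
      exact hpm u hu _ ((hGmem _).2 (hgb k))
    · intro u _ v _ huv
      simp only [hxy] at huv
      have h1 : ∀ f : StrongDual ℝ Y, f u = f v := by
        intro f
        have h2 : f ∈ Submodule.span ℝ (Set.range gb) := by rw [gb.span_eq]; trivial
        induction h2 using Submodule.span_induction with
        | mem x hx =>
          obtain ⟨k, rfl⟩ := hx
          exact huv k
        | zero => rfl
        | add x y _ _ hx hy => simp [hx, hy]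
        | smul a x _ hx => simp [hx]
      exact (SeparatingDual.eq_iff_forall_dual_eq (R := ℝ)).2 h1
  have hGcard : Real.log G.card ≤ δ ^ 2 * Real.log (m + 1) := by
    refine card_le_of_signs G (fun g => δ⁻¹ • y g) (fun k => δ • x (ub k)) ?_ ?_ ?_ ?_
    · intro g hg
      rw [norm_smul, norm_inv, Real.norm_of_nonneg hδpos.le, inv_mul_le_iff₀ hδpos, mul_one]
      exact hyn g hg
    · intro k
      rw [norm_smul, Real.norm_of_nonneg hδpos.le]
      calc δ * ‖x (ub k)‖ ≤ δ * 1 := by gcongr; exact hxn _ ((hUmem _).2 (hub k))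
        _ = δ := mul_one _
    · intro g hg k
      have h1 : inner ℝ (δ • x (ub k)) (δ⁻¹ • y g) = g (ub k) := by
        rw [inner_smul_left, inner_smul_right, real_inner_comm, hxy]
        simp only [conj_trivial]
        field_simp
      rw [h1]
      exact hpm _ ((hUmem _).2 (hub k)) g hg
    · intro g _ g' _ hgg
      have h1 : ∀ g : StrongDual ℝ Y, ∀ k, inner ℝ (δ • x (ub k)) (δ⁻¹ • y g) = g (ub k) := by
        intro g k
        rw [inner_smul_left, inner_smul_right, real_inner_comm, hxy]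
        simp only [conj_trivial]
        field_simp
      simp only [h1] at hgg
      have h2 : (g : Y →ₗ[ℝ] ℝ) = (g' : Y →ₗ[ℝ] ℝ) := ub.ext fun k => hgg k
      ext z
      exact congrArg (fun L : Y →ₗ[ℝ] ℝ => L z) h2
  -- the sign vector
  set w : U ⊕ G → EuclideanSpace ℝ (Fin m) :=
    Sum.elim (fun u => x u.1) (fun g => δ⁻¹ • y g.1) with hw
  have hwn : ∀ i, ‖w i‖ ≤ 1 := by
    rintro (u | g)
    · exact hxn _ u.2
    · simp only [hw, Sum.elim_inr]
      rw [norm_smul, norm_inv, Real.norm_of_nonneg hδpos.le, inv_mul_le_iff₀ hδpos, mul_one]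
      exact hyn _ g.2
  have hcard : Fintype.card (U ⊕ G) = U.card + G.card := by simp
  have hN2 : 2 ≤ Fintype.card (U ⊕ G) := by
    rw [hcard]
    have h1 := hUne.card_pos
    have h2 := hGne.card_pos
    omega
  obtain ⟨e, hepm, he⟩ := exists_sign_vector w hwn hN2
  set t : ℝ := Real.sqrt (2 * Real.log (Fintype.card (U ⊕ G))) with ht
  have ht0 : 0 ≤ t := Real.sqrt_nonneg _
  have hUcpos : (0 : ℝ) < U.card := by exact_mod_cast hUne.card_pos
  have hGcpos : (0 : ℝ) < G.card := by exact_mod_cast hGne.card_pos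
  have hlogN : Real.log (Fintype.card (U ⊕ G)) ≤ 2 * δ ^ 2 * Real.log (m + 1) := by
    rw [hcard]
    push_cast
    set L : ℝ := δ ^ 2 * Real.log (m + 1) with hL
    have h1 : (U.card : ℝ) ≤ Real.exp L := (Real.log_le_iff_le_exp hUcpos).1 hUcard
    have h2 : (G.card : ℝ) ≤ Real.exp L := (Real.log_le_iff_le_exp hGcpos).1 hGcard
    have h3 : Real.log ((U.card : ℝ) + G.card) ≤ Real.log (2 * Real.exp L) := by
      apply Real.log_le_log (by positivity)
      linarith
    rw [Real.log_mul (by norm_num) (Real.exp_pos L).ne', Real.log_exp] at h3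
    have h4 : Real.log 2 ≤ Real.log (m + 1) := Real.log_le_log (by norm_num) (by linarith)
    have h5 : Real.log (m + 1) ≤ L := by
      rw [hL]
      calc Real.log (m + 1) = 1 * Real.log (m + 1) := (one_mul _).symm
        _ ≤ δ ^ 2 * Real.log (m + 1) := by
          gcongr
          exact one_le_pow₀ hδ1
    have h6 : 2 * δ ^ 2 * Real.log (m + 1) = 2 * L := by rw [hL]; ring
    rw [h6]
    linarith
  have hlogN0 : 0 ≤ Real.log (Fintype.card (U ⊕ G)) := by
    apply Real.log_nonneg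
    have : 1 ≤ Fintype.card (U ⊕ G) := by omega
    exact_mod_cast this
  have ht2 : t ^ 2 = 2 * Real.log (Fintype.card (U ⊕ G)) := Real.sq_sqrt (by linarith)
  -- norms of the sign vector
  set v : Y := T.symm e with hv
  have hvn : ‖v‖ ≤ δ * t / a := by
    apply norm_le_of_extreme_dual
    intro g hg
    have h1 := he (Sum.inr ⟨g, (hGmem g).2 hg⟩)
    simp only [hw, Sum.elim_inr] at h1
    rw [inner_smul_right, real_inner_comm, hyin, inv_mul_le_iff₀ hδpos] at h1
    rw [le_div_iff₀ hapos]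
    linarith
  set ℓ : StrongDual ℝ Y := (innerSL ℝ e).comp (T : Y →L[ℝ] EuclideanSpace ℝ (Fin m)) with hℓ
  have hℓapp : ∀ z, ℓ z = inner ℝ e (T z) := fun z => rfl
  have h7 : ℓ v ≤ (a * t) * ‖v‖ := by
    apply le_mul_norm_of_extreme
    intro u hu
    have h1 := he (Sum.inl ⟨u, (hUmem u).2 hu⟩)
    simp only [hw, Sum.elim_inl, hx] at h1
    rw [inner_smul_right, inv_mul_le_iff₀ hapos] at h1
    rw [hℓapp]
    exact h1
  have h8 : ℓ v = m := by
    rw [hℓapp, hv, ContinuousLinearEquiv.apply_symm_apply, real_inner_self_eq_norm_sq,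
      EuclideanSpace.norm_sq_eq]
    have : ∀ k, ‖e k‖ ^ 2 = 1 := by
      intro k
      rcases hepm k with h1 | h1 <;> rw [h1] <;> norm_num
    rw [Finset.sum_congr rfl fun k _ => this k]
    simp
  have h9 : (m : ℝ) ≤ δ * t ^ 2 := by
    calc (m : ℝ) = ℓ v := h8.symm
      _ ≤ (a * t) * ‖v‖ := h7
      _ ≤ (a * t) * (δ * t / a) := by gcongr
      _ = δ * t ^ 2 := by field_simp
  calc (m : ℝ) ≤ δ * t ^ 2 := h9
    _ = δ * (2 * Real.log (Fintype.card (U ⊕ G))) := by rw [ht2]
    _ ≤ δ * (2 * (2 * δ ^ 2 * Real.log (m + 1))) := by gcongr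
    _ = 4 * δ ^ 3 * Real.log (m + 1) := by ring

/-- The lower bound for the distance to the Euclidean space. -/
theorem hilbert_dist {m : ℕ} (hm : 0 < m) (Y : NSpace m) (hY : numIndex Y.carrier = 1) :
    ENNReal.ofReal (((m : ℝ) / (4 * Real.log (m + 1))) ^ (1 / 3 : ℝ)) ≤
      bmDist Y.carrier (EuclideanSpace ℝ (Fin m)) := by
  refine le_iInf fun T => ENNReal.ofReal_le_ofReal ?_
  have hmR1 : (1 : ℝ) ≤ m := by exact_mod_cast hm
  have hlogm : 0 < Real.log (m + 1) := Real.log_pos (by linarith)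
  have h1 := hilbert_bound hY hm Y.finrank_eq T
  set δ := ‖(T : Y.carrier →L[ℝ] EuclideanSpace ℝ (Fin m))‖ *
      ‖(T.symm : EuclideanSpace ℝ (Fin m) →L[ℝ] Y.carrier)‖ with hδ
  have hδ0 : 0 ≤ δ := by positivity
  have h2 : (m : ℝ) / (4 * Real.log (m + 1)) ≤ δ ^ 3 := by
    rw [div_le_iff₀ (by positivity)]
    linarith
  calc ((m : ℝ) / (4 * Real.log (m + 1))) ^ (1 / 3 : ℝ) ≤ (δ ^ 3) ^ (1 / 3 : ℝ) := by
        apply Real.rpow_le_rpow (by positivity) h2 (by norm_num)
    _ = δ := by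
        rw [← Real.rpow_natCast, ← Real.rpow_mul hδ0]
        norm_num

end Pool.Agent.H.MP_d7d3dc_an
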