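import Mathlib

open Set Metric Module MeasureTheory
open scoped ENNReal

namespace Pool.Agent.H.MP_d7d3dc_an

section Step

variable {V : Type*} [NormedAddCommGroup V] [InnerProductSpace ℝ V]

theorem maurey_step {ι : Type*} [Fintype ι] (A : ι → V) (hA : ∀ i, ‖A i‖ ≤ 1) (w : ι → ℝ)
    (hw : ∀ i, 0 ≤ w i) (hw1 : ∑ i, w i = 1) (S : V) :
    ∃ i, ‖S + (A i - ∑ j, w j • A j)‖ ^ 2 ≤ ‖S‖ ^ 2 + 1 := by
  by_contra hcon
  push Not at hcon
  set x := ∑ j, w j • A j with hx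
  have h1 : ∑ i, w i * (‖S‖ ^ 2 + 1) < ∑ i, w i * ‖S + (A i - x)‖ ^ 2 := by
    apply Finset.sum_lt_sum
    · intro i _
      exact mul_le_mul_of_nonneg_left (hcon i).le (hw i)
    · by_contra hno
      push Not at hno
      have : ∀ i, w i = 0 := by
        intro i
        by_contra hi
        have hpos : 0 < w i := lt_of_le_of_ne (hw i) (Ne.symm hi)
        have h2 := hno i (Finset.mem_univ i)
        have h3 := mul_lt_mul_of_pos_left (hcon i) hpos
        linarith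
      simp [this] at hw1
  have h2 : ∑ i, w i * ‖S + (A i - x)‖ ^ 2 = ‖S‖ ^ 2 + ∑ i, w i * ‖A i‖ ^ 2 - ‖x‖ ^ 2 := by
    have h3 : ∀ i, w i * ‖S + (A i - x)‖ ^ 2 = w i * ‖S - x‖ ^ 2 + 2 * inner ℝ (S - x) (w i • A i)
        + w i * ‖A i‖ ^ 2 := by
      intro i
      have : S + (A i - x) = (S - x) + A i := by abel
      rw [this, norm_add_sq_real, inner_smul_right]
      ring
    simp only [h3, Finset.sum_add_distrib]
    rw [← Finset.sum_mul, hw1, one_mul, ← Finset.mul_sum, ← inner_sum, ← hx, norm_sub_sq_real,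
      inner_sub_left, real_inner_self_eq_norm_sq]
    ring
  have h4 : ∑ i, w i * ‖A i‖ ^ 2 ≤ 1 := by
    calc ∑ i, w i * ‖A i‖ ^ 2 ≤ ∑ i, w i * 1 := by
          apply Finset.sum_le_sum
          intro i _
          apply mul_le_mul_of_nonneg_left _ (hw i)
          exact pow_le_one₀ (norm_nonneg _) (hA i)
      _ = 1 := by simp [hw1]
  rw [h2, ← Finset.sum_mul, hw1, one_mul] at h1
  nlinarith [sq_nonneg ‖x‖]

theorem maurey_sum {ι : Type*} [Fintype ι] (A : ι → V) (hA : ∀ i, ‖A i‖ ≤ 1) (w : ι → ℝ)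
    (hw : ∀ i, 0 ≤ w i) (hw1 : ∑ i, w i = 1) (k : ℕ) :
    ∃ f : Fin k → ι, ‖∑ j, (A (f j) - ∑ j, w j • A j)‖ ^ 2 ≤ k := by
  induction k with
  | zero => exact ⟨Fin.elim0, by simp⟩
  | succ k ih =>
    obtain ⟨f, hf⟩ := ih
    obtain ⟨i, hi⟩ := maurey_step A hA w hw hw1 (∑ j, (A (f j) - ∑ j, w j • A j))
    refine ⟨Fin.snoc f i, ?_⟩
    rw [Fin.sum_univ_castSucc]
    simp only [Fin.snoc_castSucc, Fin.snoc_last]
    push_cast
    linarith

theorem maurey_avg {ι : Type*} [Fintype ι] (A : ι → V) (hA : ∀ i, ‖A i‖ ≤ 1) {x : V}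
    (hx : x ∈ convexHull ℝ (range A)) {k : ℕ} (hk : 0 < k) :
    ∃ f : Fin k → ι, x ∈ closedBall ((k : ℝ)⁻¹ • ∑ j, A (f j)) (Real.sqrt k)⁻¹ := by
  rw [convexHull_range_eq_exists_affineCombination] at hx
  obtain ⟨s, w, hw, hw1, rfl⟩ := hx
  rw [Finset.affineCombination_eq_linear_combination _ _ _ hw1]
  classical
  set w' : ι → ℝ := fun i => if i ∈ s then w i else 0 with hw'
  have hw'0 : ∀ i, 0 ≤ w' i := by
    intro i; simp only [hw']; split_ifs with h
    · exact hw i h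
    · exact le_rfl
  have hw'1 : ∑ i, w' i = 1 := by
    rw [← hw1]; simp [hw']
  have hsum : ∑ i ∈ s, w i • A i = ∑ i, w' i • A i := by
    simp [hw', ite_smul]
  rw [hsum]
  obtain ⟨f, hf⟩ := maurey_sum A hA w' hw'0 hw'1 k
  refine ⟨f, ?_⟩
  set x := ∑ i, w' i • A i with hx
  have hk' : (0 : ℝ) < k := by exact_mod_cast hk
  have h1 : ‖∑ j, (A (f j) - x)‖ ≤ Real.sqrt k := Real.le_sqrt_of_sq_le hf
  have h2 : ∑ j : Fin k, (A (f j) - x) = (∑ j, A (f j)) - (k : ℝ) • x := by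
    rw [Finset.sum_sub_distrib, Finset.sum_const, Finset.card_univ, Fintype.card_fin,
      Nat.cast_smul_eq_nsmul]
  have h3 : (k : ℝ)⁻¹ • (∑ j, A (f j)) - x = (k : ℝ)⁻¹ • ∑ j : Fin k, (A (f j) - x) := by
    rw [h2, smul_sub, smul_smul, inv_mul_cancel₀ hk'.ne', one_smul]
  rw [mem_closedBall, dist_comm, dist_eq_norm, h3, norm_smul, norm_inv, Real.norm_of_nonneg hk'.le]
  calc (k : ℝ)⁻¹ * ‖∑ j : Fin k, (A (f j) - x)‖ ≤ (k : ℝ)⁻¹ * Real.sqrt k := by gcongr
    _ = (Real.sqrt k)⁻¹ := by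
      have : Real.sqrt k * Real.sqrt k = k := Real.mul_self_sqrt hk'.le
      have hs : 0 < Real.sqrt k := Real.sqrt_pos.2 hk'
      field_simp
      nlinarith

end Step

/-- Volume of the convex hull of few points of the unit ball. -/
theorem volume_convexHull_le {m : ℕ} {ι : Type*} [Fintype ι]
    (A : ι → EuclideanSpace ℝ (Fin m)) (hA : ∀ i, ‖A i‖ ≤ 1) {k : ℕ} (hk : 0 < k) :
    volume (convexHull ℝ (range A)) ≤
      ENNReal.ofReal ((Fintype.card ι : ℝ) ^ k * (Real.sqrt k)⁻¹ ^ m) *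
        volume (ball (0 : EuclideanSpace ℝ (Fin m)) 1) := by
  classical
  have hsub : convexHull ℝ (range A) ⊆
      ⋃ f : Fin k → ι, closedBall ((k : ℝ)⁻¹ • ∑ j, A (f j)) (Real.sqrt k)⁻¹ := by
    intro x hx
    obtain ⟨f, hf⟩ := maurey_avg A hA hx hk
    exact mem_iUnion.2 ⟨f, hf⟩
  have hs0 : 0 ≤ (Real.sqrt k)⁻¹ := by positivity
  calc volume (convexHull ℝ (range A)) ≤
      volume (⋃ f : Fin k → ι, closedBall ((k : ℝ)⁻¹ • ∑ j, A (f j)) (Real.sqrt k)⁻¹) :=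
        measure_mono hsub
    _ ≤ ∑ f : Fin k → ι, volume (closedBall ((k : ℝ)⁻¹ • ∑ j, A (f j)) (Real.sqrt k)⁻¹) :=
        measure_iUnion_fintype_le _ _
    _ = ∑ f : Fin k → ι, ENNReal.ofReal ((Real.sqrt k)⁻¹ ^ m) *
          volume (ball (0 : EuclideanSpace ℝ (Fin m)) 1) := by
        apply Finset.sum_congr rfl
        intro f _
        rw [Measure.addHaar_closedBall _ _ hs0, finrank_euclideanSpace, Fintype.card_fin]
    _ = _ := by
        rw [Finset.sum_const, Finset.card_univ, Fintype.card_fun, Fintype.card_fin, nsmul_eq_mul,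
          ← mul_assoc, ENNReal.ofReal_mul (by positivity)]
        congr 2
        rw [ENNReal.ofReal_pow (by positivity), ENNReal.ofReal_natCast]
        push_cast
        rfl

end Pool.Agent.H.MP_d7d3dc_an
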