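import Mathlib

open Set Metric Module MeasureTheory
open scoped ENNReal

namespace Pool.Agent.H.MP_d7d3dc_an

/-- There are `N` points of the unit ball not all contained in any small set from a family of
fewer than `2 ^ (m * N)` sets. -/
theorem exists_points {m N : ℕ} {I : Type} [Fintype I] (L : I → Set (EuclideanSpace ℝ (Fin m)))
    (hcard : Fintype.card I < 2 ^ (m * N)) :
    ∃ x : Fin N → EuclideanSpace ℝ (Fin m), (∀ j, ‖x j‖ ≤ 1) ∧
      ∀ i, volume (L i) ≤ ENNReal.ofReal ((1 / 2) ^ m) *
          volume (ball (0 : EuclideanSpace ℝ (Fin m)) 1) → ¬ ∀ j, x j ∈ L i := by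
  classical
  by_contra hcon
  push Not at hcon
  set μB := volume (ball (0 : EuclideanSpace ℝ (Fin m)) 1) with hμB
  have hpos : μB ≠ 0 := (measure_ball_pos volume _ one_pos).ne'
  have hfin : μB ≠ ⊤ := measure_ball_lt_top.ne
  set c : ℝ≥0∞ := ENNReal.ofReal ((1 / 2) ^ m) * μB with hc
  set L' : I → Set (EuclideanSpace ℝ (Fin m)) := fun i => if volume (L i) ≤ c then L i else ∅
    with hL'
  have hL'c : ∀ i, volume (L' i) ≤ c := by
    intro i
    simp only [hL']
    split_ifs with h
    · exact h
    · simp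
  have hcover : (Set.pi univ fun _ : Fin N => ball (0 : EuclideanSpace ℝ (Fin m)) 1) ⊆
      ⋃ i, Set.pi univ fun _ : Fin N => L' i := by
    intro x hx
    obtain ⟨i, hi, hxi⟩ := hcon x (fun j => by
      have := hx j (mem_univ j)
      simp only [mem_ball, dist_zero_right] at this
      exact this.le)
    refine mem_iUnion.2 ⟨i, fun j _ => ?_⟩
    simp only [hL', if_pos hi]
    exact hxi j
  have h1 : μB ^ N ≤ (Fintype.card I : ℝ≥0∞) * c ^ N := by
    calc μB ^ N = volume (Set.pi univ fun _ : Fin N => ball (0 : EuclideanSpace ℝ (Fin m)) 1) := by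
          rw [volume_pi_pi]; simp [hμB]
      _ ≤ volume (⋃ i, Set.pi univ fun _ : Fin N => L' i) := measure_mono hcover
      _ ≤ ∑ i, volume (Set.pi univ fun _ : Fin N => L' i) := measure_iUnion_fintype_le _ _
      _ ≤ ∑ i : I, c ^ N := by
          apply Finset.sum_le_sum
          intro i _
          rw [volume_pi_pi]
          simp only [Finset.prod_const, Finset.card_univ, Fintype.card_fin]
          gcongr
          exact hL'c i
      _ = _ := by simp
  have h2 : (Fintype.card I : ℝ≥0∞) * c ^ N =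
      ENNReal.ofReal ((Fintype.card I : ℝ) * (1 / 2) ^ (m * N)) * μB ^ N := by
    rw [hc, mul_pow, ← ENNReal.ofReal_pow (by positivity), ← pow_mul,
      ENNReal.ofReal_mul (by positivity), ENNReal.ofReal_natCast, mul_assoc]
  have h3 : (Fintype.card I : ℝ) * (1 / 2) ^ (m * N) < 1 := by
    have : (Fintype.card I : ℝ) < 2 ^ (m * N) := by exact_mod_cast hcard
    calc (Fintype.card I : ℝ) * (1 / 2) ^ (m * N) < 2 ^ (m * N) * (1 / 2) ^ (m * N) := by
          gcongr
      _ = 1 := by rw [← mul_pow]; norm_num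
  have h4 : (Fintype.card I : ℝ≥0∞) * c ^ N < μB ^ N := by
    rw [h2]
    calc ENNReal.ofReal ((Fintype.card I : ℝ) * (1 / 2) ^ (m * N)) * μB ^ N
        < 1 * μB ^ N := by
          rw [ENNReal.mul_lt_mul_iff_left (pow_ne_zero _ hpos) (ENNReal.pow_ne_top hfin)]
          rw [ENNReal.ofReal_lt_one]
          exact h3
      _ = μB ^ N := one_mul _
  exact absurd h1 (not_le.2 h4)

end Pool.Agent.H.MP_d7d3dc_an
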