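import Pool.Agent.H.MP_d7d3dc_an.Core
import Pool.Agent.H.MP_d7d3dc_an.Maurey
import Pool.Agent.H.MP_d7d3dc_an.Random

open Set Metric Module MeasureTheory
open scoped ENNReal Pointwise

namespace Pool.Agent.H.MP_d7d3dc_an

theorem one_le_bmDist {X Y : Type} [NormedAddCommGroup X] [NormedSpace ℝ X]
    [NormedAddCommGroup Y] [NormedSpace ℝ Y] [Nontrivial X] : 1 ≤ bmDist X Y := by
  refine le_iInf fun T => ?_
  rw [ENNReal.one_le_ofReal]
  have h1 : (1 : ℝ) = ‖ContinuousLinearMap.id ℝ X‖ := ContinuousLinearMap.norm_id.symm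
  have h2 : ContinuousLinearMap.id ℝ X = (T.symm : Y →L[ℝ] X).comp (T : X →L[ℝ] Y) := by
    ext v; simp
  rw [h1, h2, mul_comm]
  exact ContinuousLinearMap.opNorm_comp_le _ _

theorem two_mul_cube_lt {m : ℕ} (hm : 0 < m) : 2 * m ^ 3 + 1 < 8 ^ m := by
  induction m with
  | zero => exact absurd hm (lt_irrefl _)
  | succ n ih =>
    rcases Nat.eq_zero_or_pos n with h0 | h0
    · subst h0; norm_num
    · have h1 := ih h0
      have h8 : (8 : ℕ) ^ (n + 1) = 8 * 8 ^ n := by ring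
      rw [h8]
      have h2 : 2 * (n + 1) ^ 3 + 1 ≤ 8 * (2 * n ^ 3 + 1) := by
        have h3 : n ^ 3 ≥ n ^ 2 := Nat.pow_le_pow_right h0 (by norm_num)
        have h4 : n ^ 3 ≥ n := by
          calc n = n ^ 1 := (pow_one n).symm
            _ ≤ n ^ 3 := Nat.pow_le_pow_right h0 (by norm_num)
        nlinarith
      omega

theorem card_index_lt {m : ℕ} (hm : 0 < m) :
    Fintype.card ((Fin (m ^ 2) → Fin m → Bool) × (Fin m → Fin m → Fin (2 * m ^ 3 + 1))) <
      2 ^ (m * (4 * m ^ 2)) := by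
  rw [Fintype.card_prod]
  simp only [Fintype.card_fun, Fintype.card_fin, Fintype.card_bool]
  have h1 : (2 * m ^ 3 + 1) ^ m < (8 ^ m) ^ m := Nat.pow_lt_pow_left (two_mul_cube_lt hm) hm.ne'
  have h2 : ((2 * m ^ 3 + 1) ^ m) ^ m < ((8 ^ m) ^ m) ^ m := Nat.pow_lt_pow_left h1 hm.ne'
  calc (2 ^ m) ^ m ^ 2 * ((2 * m ^ 3 + 1) ^ m) ^ m
      < (2 ^ m) ^ m ^ 2 * ((8 ^ m) ^ m) ^ m := by
        apply Nat.mul_lt_mul_of_pos_left h2; positivity
    _ = 2 ^ (m * (4 * m ^ 2)) := by
        rw [show (8 : ℕ) = 2 ^ 3 by norm_num]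
        simp only [← pow_mul, ← pow_add]
        congr 1
        ring

theorem card_pts_sq_le {m : ℕ} (hm : 0 < m) :
    (2 * (m + 4 * m ^ 2)) ^ 2 ≤ (m + 1) ^ 7 := by
  have h5 : m ^ 4 ≤ m ^ 5 := Nat.pow_le_pow_right hm (by norm_num)
  have h6 : m ^ 4 ≤ m ^ 6 := Nat.pow_le_pow_right hm (by norm_num)
  have h7 : m ^ 4 ≤ m ^ 7 := Nat.pow_le_pow_right hm (by norm_num)
  nlinarith

theorem numeric {m : ℕ} (hm : 0 < m) (hbig : 7 / 2 * Real.log (m + 1) ≤ m) :
    ∃ k : ℕ, 0 < k ∧
      (3 * (1 / 45 * Real.sqrt (m / Real.log (m + 1)))) ^ m *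
        (((2 * (m + 4 * m ^ 2) : ℕ) : ℝ) ^ k * (Real.sqrt k)⁻¹ ^ m) ≤ (1 / 2 : ℝ) ^ m := by
  have hmR : (0 : ℝ) < m := by exact_mod_cast hm
  have hlog : 0 < Real.log (m + 1) := Real.log_pos (by linarith)
  set lam : ℝ := 7 / 2 * Real.log (m + 1) with hlam
  have hlampos : 0 < lam := by positivity
  set k : ℕ := ⌊(m : ℝ) / lam⌋₊ with hk
  have h1 : 1 ≤ (m : ℝ) / lam := by rw [le_div_iff₀ hlampos]; linarith
  have hk1 : 1 ≤ k := by rw [hk, Nat.one_le_floor_iff]; exact h1
  have hkle : (k : ℝ) ≤ (m : ℝ) / lam := Nat.floor_le (by positivity)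
  have hkge : (m : ℝ) / lam < k + 1 := Nat.lt_floor_add_one _
  have hkR1 : (1 : ℝ) ≤ k := by exact_mod_cast hk1
  have hk2 : (m : ℝ) / lam / 2 ≤ k := by linarith
  refine ⟨k, hk1, ?_⟩
  set n : ℕ := 2 * (m + 4 * m ^ 2) with hn
  have hnpos : (0 : ℝ) < n := by
    rw [hn]; positivity
  have hlogn : Real.log n ≤ lam := by
    have h2 : ((n : ℝ)) ^ 2 ≤ ((m : ℝ) + 1) ^ 7 := by exact_mod_cast card_pts_sq_le hm
    have h3 := Real.log_le_log (by positivity) h2
    rw [Real.log_pow, Real.log_pow] at h3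
    push_cast at h3
    rw [hlam]; linarith
  have hnk : (n : ℝ) ^ k ≤ (Real.exp 1) ^ m := by
    rw [← Real.exp_log hnpos, ← Real.exp_nat_mul, ← Real.exp_nat_mul]
    apply Real.exp_le_exp.2
    calc (k : ℝ) * Real.log n ≤ (m / lam) * lam := by
          apply mul_le_mul hkle hlogn _ (by positivity)
          exact Real.log_nonneg (by
            have : 1 ≤ n := by rw [hn]; omega
            exact_mod_cast this)
      _ = m * 1 := by field_simp
  set t : ℝ := Real.sqrt (m / Real.log (m + 1)) with ht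
  have ht2 : t ^ 2 = m / Real.log (m + 1) := Real.sq_sqrt (by positivity)
  have ht0 : 0 ≤ t := Real.sqrt_nonneg _
  have hsk : 2 * Real.exp 1 * t / 15 ≤ Real.sqrt k := by
    apply Real.le_sqrt_of_sq_le
    have h4 : (m : ℝ) / lam / 2 = t ^ 2 / 7 := by
      rw [ht2, hlam]; field_simp
    rw [h4] at hk2
    have he : Real.exp 1 < 2.7182818286 := Real.exp_one_lt_d9
    have he0 : 0 < Real.exp 1 := Real.exp_pos 1
    have he2 : Real.exp 1 ^ 2 ≤ 2.7182818286 ^ 2 := by gcongr
    calc (2 * Real.exp 1 * t / 15) ^ 2 = 4 / 225 * (Real.exp 1 ^ 2) * t ^ 2 := by ring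
      _ ≤ 4 / 225 * (2.7182818286 ^ 2) * t ^ 2 := by gcongr
      _ ≤ 1 / 7 * t ^ 2 := by gcongr; norm_num
      _ ≤ k := by linarith
  have hskpos : 0 < Real.sqrt k := Real.sqrt_pos.2 (by linarith)
  calc (3 * (1 / 45 * t)) ^ m * ((n : ℝ) ^ k * (Real.sqrt k)⁻¹ ^ m)
      ≤ (3 * (1 / 45 * t)) ^ m * ((Real.exp 1) ^ m * (Real.sqrt k)⁻¹ ^ m) := by
        gcongr
    _ = (3 * (1 / 45 * t) * Real.exp 1 * (Real.sqrt k)⁻¹) ^ m := by
        rw [mul_pow _ (Real.sqrt k)⁻¹, mul_pow _ (Real.exp 1), mul_assoc]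
    _ ≤ (1 / 2) ^ m := by
        apply pow_le_pow_left₀ (by positivity)
        rw [mul_inv_le_iff₀ hskpos]
        linarith

theorem lower_bound {m : ℕ} (hm : 0 < m) :
    ENNReal.ofReal (1 / 45 * Real.sqrt (m / Real.log (m + 1))) ≤ maxDist m := by
  have hmR : (0 : ℝ) < m := by exact_mod_cast hm
  have hmR1 : (1 : ℝ) ≤ m := by exact_mod_cast hm
  have hlog : 0 < Real.log (m + 1) := Real.log_pos (by linarith)
  have : NeZero m := ⟨hm.ne'⟩
  by_cases hbig : 7 / 2 * Real.log (m + 1) ≤ m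
  · -- the main case
    set r : ℝ := 1 / 45 * Real.sqrt (m / Real.log (m + 1)) with hr
    obtain ⟨k, hk, hnum⟩ := numeric hm hbig
    rw [← hr] at hnum
    have hr0 : 0 ≤ r := by positivity
    have hlog2 : 1 / 2 ≤ Real.log (m + 1) := by
      have h1 := Real.log_two_gt_d9
      have h2 : Real.log 2 ≤ Real.log (m + 1) := Real.log_le_log (by norm_num) (by linarith)
      linarith
    have hrm : r ≤ m := by
      have h1 : Real.sqrt (m / Real.log (m + 1)) ≤ 45 * m := by
        apply Real.sqrt_le_iff.2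
        refine ⟨by positivity, ?_⟩
        rw [div_le_iff₀ hlog]
        have h3 : (m : ℝ) ≤ m * m := by nlinarith
        nlinarith
      rw [hr]; linarith
    obtain ⟨x, hx, hbad⟩ := exists_points (m := m) (N := 4 * m ^ 2)
      (I := (Fin (m ^ 2) → Fin m → Bool) × (Fin m → Fin m → Fin (2 * m ^ 3 + 1)))
      LBody (card_index_lt hm)
    -- the test space
    set A : EuclideanSpace ℝ (Fin m) →ₗ[ℝ] (Fin m ⊕ Fin (4 * m ^ 2) → ℝ) :=
      LinearMap.pi (fun i => (innerSL ℝ (pts x i)).toLinearMap) with hA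
    have hAapp : ∀ y i, A y i = inner ℝ (pts x i) y := fun y i => rfl
    have hAinj : Function.Injective A := by
      rw [← LinearMap.ker_eq_bot, LinearMap.ker_eq_bot']
      intro y hy
      ext k
      have h1 := congrFun hy (Sum.inl k)
      rw [hAapp] at h1
      simpa [pts, EuclideanSpace.inner_single_left] using h1
    set e := LinearEquiv.ofInjective A hAinj with he
    have hfr : finrank ℝ (LinearMap.range A) = m := by
      rw [← e.finrank_eq]; simp
    set X : NSpace m := { carrier := LinearMap.range A, finrank_eq := hfr } with hX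
    refine le_trans ?_ (le_iSup _ X)
    refine le_iInf fun Y => le_iInf fun hY => le_iInf fun T => ?_
    by_contra hcon
    rw [not_le] at hcon
    have hlt := (ENNReal.ofReal_lt_ofReal_iff' .. ).1 hcon
    have hnorm : ∀ (y : EuclideanSpace ℝ (Fin m)) (c : ℝ), 0 ≤ c →
        (‖e y‖ ≤ c ↔ ∀ i, |inner ℝ (pts x i) y| ≤ c) := by
      intro y c hc
      rw [Submodule.coe_norm, pi_norm_le_iff_of_nonneg hc]
      rfl
    obtain ⟨p, hp1, hp2⟩ := core hm hx (Z := LinearMap.range A) e hnorm Y.finrank_eq hY T hlt.1.le hrm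
    refine hbad p ?_ hp1
    have hrpos : 0 < r := hlt.2
    calc volume (LBody p) ≤ volume ((3 * r) • convexHull ℝ (range (symPts x))) := measure_mono hp2
      _ = ENNReal.ofReal ((3 * r) ^ m) * volume (convexHull ℝ (range (symPts x))) := by
          rw [Measure.addHaar_smul, finrank_euclideanSpace, Fintype.card_fin,
            abs_of_nonneg (by positivity)]
      _ ≤ ENNReal.ofReal ((3 * r) ^ m) * (ENNReal.ofReal
            (((2 * (m + 4 * m ^ 2) : ℕ) : ℝ) ^ k * (Real.sqrt k)⁻¹ ^ m) *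
              volume (ball (0 : EuclideanSpace ℝ (Fin m)) 1)) := by
          gcongr
          have h1 := volume_convexHull_le (symPts x) (norm_symPts_le hx) hk
          have h2 : Fintype.card ((Fin m ⊕ Fin (4 * m ^ 2)) ⊕ (Fin m ⊕ Fin (4 * m ^ 2))) =
              2 * (m + 4 * m ^ 2) := by
            simp only [Fintype.card_sum, Fintype.card_fin]; ring
          rw [h2] at h1
          exact h1
      _ = ENNReal.ofReal ((3 * r) ^ m *
            (((2 * (m + 4 * m ^ 2) : ℕ) : ℝ) ^ k * (Real.sqrt k)⁻¹ ^ m)) *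
              volume (ball (0 : EuclideanSpace ℝ (Fin m)) 1) := by
          rw [← mul_assoc, ← ENNReal.ofReal_mul (by positivity)]
      _ ≤ ENNReal.ofReal ((1 / 2) ^ m) * volume (ball (0 : EuclideanSpace ℝ (Fin m)) 1) := by
          gcongr
  · -- small case: the bound is below one
    push Not at hbig
    have h1 : 1 / 45 * Real.sqrt (m / Real.log (m + 1)) ≤ 1 := by
      have : Real.sqrt (m / Real.log (m + 1)) ≤ 45 := by
        apply Real.sqrt_le_iff.2
        refine ⟨by norm_num, ?_⟩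
        rw [div_le_iff₀ hlog]
        linarith
      linarith
    set X : NSpace m := { carrier := EuclideanSpace ℝ (Fin m), finrank_eq := by simp } with hX
    refine le_trans ?_ (le_iSup _ X)
    refine le_iInf fun Y => le_iInf fun hY => ?_
    have hXnt : Nontrivial X.carrier := by
      rw [← finrank_pos_iff (R := ℝ), X.finrank_eq]; exact hm
    calc ENNReal.ofReal (1 / 45 * Real.sqrt (m / Real.log (m + 1))) ≤ ENNReal.ofReal 1 :=
          ENNReal.ofReal_le_ofReal h1
      _ = 1 := ENNReal.ofReal_one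
      _ ≤ _ := one_le_bmDist

end Pool.Agent.H.MP_d7d3dc_an
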