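import Pool.Agent.H.MP_d7d3dc_an.Defs
import Pool.Agent.H.MP_d7d3dc_an.ConvCompact

open Set Metric

namespace Pool.Agent.H.MP_d7d3dc_an

section Denting

variable {X : Type} [NormedAddCommGroup X] [NormedSpace ℝ X] [FiniteDimensional ℝ X]

/-- Denting lemma: an extreme point of the unit ball of a finite-dimensional space is denting. -/
theorem exists_slice [Nontrivial X] {z : X} (hz : z ∈ (closedBall (0 : X) 1).extremePoints ℝ) {ε : ℝ}
    (hε : 0 < ε) (hε1 : ε ≤ 1) :
    ∃ (φ : StrongDual ℝ X) (α : ℝ), ‖φ‖ = 1 ∧ 0 ≤ α ∧ α < 1 ∧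
      ∀ x : X, ‖x‖ ≤ 1 → α < φ x → ‖x - z‖ < ε := by
  have hzB : ‖z‖ ≤ 1 := by simpa using hz.1
  have hconv : Convex ℝ (closedBall (0 : X) 1) := convex_closedBall 0 1
  have hcomp : IsCompact (closedBall (0 : X) 1) := isCompact_closedBall 0 1
  -- the part of the ball away from z
  set A : Set X := closedBall (0 : X) 1 \ ball z ε with hA
  have hAc : IsCompact A := hcomp.diff isOpen_ball
  have hAne : (-z) ∈ A := by
    refine ⟨by simpa using hzB, ?_⟩
    have hz1 : ‖z‖ = 1 := by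
      by_contra hne
      have hlt : ‖z‖ < 1 := lt_of_le_of_ne hzB hne
      obtain ⟨v, hv⟩ := exists_ne (0 : X)
      have hvn : 0 < ‖v‖ := norm_pos_iff.2 hv
      set w : X := ((1 - ‖z‖) / ‖v‖) • v with hw
      have hwn : ‖w‖ = 1 - ‖z‖ := by
        rw [hw, norm_smul, Real.norm_of_nonneg (by apply div_nonneg <;> linarith)]
        field_simp
      have h1 : z + w ∈ closedBall (0 : X) 1 := by
        simp only [mem_closedBall, dist_zero_right]
        calc ‖z + w‖ ≤ ‖z‖ + ‖w‖ := norm_add_le _ _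
          _ = 1 := by rw [hwn]; ring
      have h2 : z - w ∈ closedBall (0 : X) 1 := by
        simp only [mem_closedBall, dist_zero_right]
        calc ‖z - w‖ ≤ ‖z‖ + ‖w‖ := norm_sub_le _ _
          _ = 1 := by rw [hwn]; ring
      have h3 : z ∈ openSegment ℝ (z + w) (z - w) := by
        refine ⟨1/2, 1/2, by norm_num, by norm_num, by norm_num, ?_⟩
        module
      have h4 := hz.2 h1 h2 h3
      have : w = 0 := by simpa using h4
      rw [this, norm_zero] at hwn
      linarith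
    simp only [mem_ball, dist_eq_norm]
    have : ‖-z - z‖ = 2 := by
      have : -z - z = (-2 : ℝ) • z := by module
      rw [this, norm_smul, hz1]; norm_num
    rw [this]; linarith
  have hzA : z ∉ convexHull ℝ A := by
    have h := (hconv.mem_extremePoints_iff_mem_sdiff_convexHull_sdiff).1 hz
    intro hmem
    apply h.2
    refine convexHull_mono ?_ hmem
    rintro x ⟨hx1, hx2⟩
    refine ⟨hx1, ?_⟩
    rintro rfl
    exact hx2 (mem_ball_self hε)
  have hclosed : IsClosed (convexHull ℝ A) := (isCompact_convexHull_fd hAc).isClosed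
  obtain ⟨f, c, hf1, hf2⟩ := geometric_hahn_banach_closed_point (convex_convexHull ℝ A) hclosed hzA
  have hfz : 0 < f z := by
    have := hf1 (-z) (subset_convexHull ℝ A hAne)
    simp only [map_neg] at this
    linarith
  have hfne : 0 < ‖f‖ := by
    rw [norm_pos_iff]; rintro rfl; simp at hfz
  have hfzle : f z ≤ ‖f‖ := by
    calc f z ≤ ‖f z‖ := le_abs_self _
      _ ≤ ‖f‖ * ‖z‖ := f.le_opNorm z
      _ ≤ ‖f‖ * 1 := by gcongr
      _ = ‖f‖ := mul_one _
  refine ⟨‖f‖⁻¹ • f, max 0 (c / ‖f‖), ?_, le_max_left _ _, ?_, ?_⟩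
  · rw [norm_smul, norm_inv, norm_norm]; field_simp
  · rw [max_lt_iff]
    refine ⟨by norm_num, ?_⟩
    rw [div_lt_one hfne]; linarith
  · intro x hx hlt
    by_contra hcon
    have hxA : x ∈ A := by
      refine ⟨by simpa using hx, ?_⟩
      simpa [dist_eq_norm] using hcon
    have h1 := hf1 x (subset_convexHull ℝ A hxA)
    have h2 : c / ‖f‖ < ‖f‖⁻¹ * f x := lt_of_le_of_lt (le_max_right _ _) hlt
    rw [div_eq_inv_mul] at h2
    have h3 := (mul_lt_mul_iff_right₀ (inv_pos.2 hfne)).1 h2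
    linarith

end Denting

section McG

variable {X : Type} [NormedAddCommGroup X] [NormedSpace ℝ X] [FiniteDimensional ℝ X]

omit [FiniteDimensional ℝ X] in
theorem numRadius_nonneg (T : X →L[ℝ] X) : 0 ≤ numRadius T := by
  apply Real.sSup_nonneg
  rintro r ⟨u, f, -, -, -, rfl⟩
  exact abs_nonneg _

omit [FiniteDimensional ℝ X] in
theorem bddBelow_numIndex :
    BddBelow {r : ℝ | ∃ T : X →L[ℝ] X, ‖T‖ = 1 ∧ r = numRadius T} := by
  refine ⟨0, ?_⟩
  rintro r ⟨T, -, rfl⟩
  exact numRadius_nonneg T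

omit [FiniteDimensional ℝ X] in
theorem numRadius_ge_one (h : numIndex X = 1) {T : X →L[ℝ] X} (hT : ‖T‖ = 1) :
    1 ≤ numRadius T := by
  rw [← h]
  exact csInf_le bddBelow_numIndex ⟨T, hT, rfl⟩

/-- McGregor's theorem, the direction we need. -/
theorem abs_eq_one_of_extreme [Nontrivial X] (h : numIndex X = 1) {u : X} {f : StrongDual ℝ X}
    (hu : u ∈ (closedBall (0 : X) 1).extremePoints ℝ)
    (hf : f ∈ (closedBall (0 : StrongDual ℝ X) 1).extremePoints ℝ) : |f u| = 1 := by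
  have hu1 : ‖u‖ ≤ 1 := by simpa using hu.1
  have hf1 : ‖f‖ ≤ 1 := by simpa using hf.1
  have hle : |f u| ≤ 1 := by
    calc |f u| = ‖f u‖ := rfl
      _ ≤ ‖f‖ * ‖u‖ := f.le_opNorm u
      _ ≤ 1 * 1 := by gcongr
      _ = 1 := one_mul 1
  have hnt : Nontrivial (StrongDual ℝ X) := inferInstance
  refine le_antisymm hle ?_
  refine le_of_forall_pos_lt_add fun δ hδ => ?_
  set ε : ℝ := min 1 (δ / 4) with hεdef
  have hε : 0 < ε := lt_min one_pos (by positivity)
  have hε1 : ε ≤ 1 := min_le_left _ _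
  have hεδ : 2 * ε < δ := by
    have : ε ≤ δ / 4 := min_le_right _ _
    linarith
  obtain ⟨φ, α, hφ, hα0, hα1, hφs⟩ := exists_slice hu hε hε1
  obtain ⟨ψ, β, hψ, hβ0, hβ1, hψs⟩ := exists_slice hf hε hε1
  -- reflexivity
  obtain ⟨y, hy⟩ : ∃ y : X, NormedSpace.inclusionInDoubleDual ℝ X y = ψ := by
    have hinj : Function.Injective (NormedSpace.inclusionInDoubleDualLi ℝ (E := X)) :=
      (NormedSpace.inclusionInDoubleDualLi ℝ (E := X)).injective
    have hfr : Module.finrank ℝ X = Module.finrank ℝ (StrongDual ℝ (StrongDual ℝ X)) := by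
      have e1 : ∀ (W : Type) [NormedAddCommGroup W] [NormedSpace ℝ W] [FiniteDimensional ℝ W],
          Module.finrank ℝ (StrongDual ℝ W) = Module.finrank ℝ W := by
        intro W _ _ _
        have := (LinearMap.toContinuousLinearMap (𝕜 := ℝ) (E := W) (F' := ℝ)).finrank_eq
        rw [← this]
        exact Subspace.dual_finrank_eq
      rw [e1, e1]
    have hsurj := (LinearMap.injective_iff_surjective_of_finrank_eq_finrank hfr
      (f := (NormedSpace.inclusionInDoubleDual ℝ X).toLinearMap)).1 (by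
        intro a b hab
        exact hinj hab)
    exact hsurj ψ
  have hyn : ‖y‖ = 1 := by
    have := (NormedSpace.inclusionInDoubleDualLi ℝ (E := X)).norm_map y
    rw [← this]
    change ‖NormedSpace.inclusionInDoubleDual ℝ X y‖ = 1
    rw [hy, hψ]
  have hψy : ∀ g : StrongDual ℝ X, ψ g = g y := by
    intro g; rw [← hy]; rfl
  -- rank one operator
  set T : X →L[ℝ] X := φ.smulRight y with hT
  have hTn : ‖T‖ = 1 := by
    rw [hT, ContinuousLinearMap.norm_smulRight_apply, hφ, hyn, one_mul]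
  have hr := numRadius_ge_one h hTn
  set S : Set ℝ := {r : ℝ | ∃ (u : X) (f : StrongDual ℝ X), ‖u‖ = 1 ∧ ‖f‖ = 1 ∧ f u = 1 ∧
    r = |f (T u)|} with hS
  have hSne : S.Nonempty := by
    by_contra hne
    rw [Set.not_nonempty_iff_eq_empty] at hne
    have : numRadius T = 0 := by
      change sSup S = 0
      rw [hne, Real.sSup_empty]
    linarith
  have hmax : max α β < sSup S := lt_of_lt_of_le (max_lt hα1 hβ1) hr
  obtain ⟨r, ⟨x, g, hx, hg, hgx, rfl⟩, hr2⟩ := exists_lt_of_lt_csSup hSne hmax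
  have hTx : g (T x) = φ x * g y := by
    rw [hT]; simp
  rw [hTx, abs_mul] at hr2
  have hφx : |φ x| ≤ 1 := by
    calc |φ x| = ‖φ x‖ := rfl
      _ ≤ ‖φ‖ * ‖x‖ := φ.le_opNorm x
      _ = 1 := by rw [hφ, hx, one_mul]
  have hgy : |g y| ≤ 1 := by
    calc |g y| = ‖g y‖ := rfl
      _ ≤ ‖g‖ * ‖y‖ := g.le_opNorm y
      _ = 1 := by rw [hg, hyn, one_mul]
  have h1 : α < |φ x| := by
    refine lt_of_le_of_lt (le_max_left α β) (lt_of_lt_of_le hr2 ?_)
    calc |φ x| * |g y| ≤ |φ x| * 1 := by gcongr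
      _ = _ := mul_one _
  have h2 : β < |g y| := by
    refine lt_of_le_of_lt (le_max_right α β) (lt_of_lt_of_le hr2 ?_)
    calc |φ x| * |g y| ≤ 1 * |g y| := by gcongr
      _ = _ := one_mul _
  obtain ⟨s, hs, hsx⟩ : ∃ s : ℝ, |s| = 1 ∧ ‖s • x - u‖ < ε := by
    rcases abs_cases (φ x) with ⟨h3, -⟩ | ⟨h3, -⟩
    · refine ⟨1, by norm_num, hφs _ (by simp [hx]) ?_⟩
      simpa [h3] using h1
    · refine ⟨-1, by norm_num, hφs _ (by simp [hx]) ?_⟩
      simpa [h3] using h1
  obtain ⟨t, ht, htg⟩ : ∃ t : ℝ, |t| = 1 ∧ ‖t • g - f‖ < ε := by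
    rcases abs_cases (g y) with ⟨h3, -⟩ | ⟨h3, -⟩
    · refine ⟨1, by norm_num, hψs ((1 : ℝ) • g) (by rw [norm_smul, hg]; norm_num) ?_⟩
      rw [hψy]
      simpa [h3] using h2
    · refine ⟨-1, by norm_num, hψs ((-1 : ℝ) • g) (by rw [norm_smul, hg]; norm_num) ?_⟩
      rw [hψy]
      simpa [h3] using h2
  have hfu : f u = t * s - (t • g - f) u - (t • g) (s • x - u) := by
    simp only [sub_apply, smul_apply, map_sub, map_smul, smul_eq_mul, hgx]
    ring
  have h3 : |(t • g - f) u| ≤ ε := by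
    calc |(t • g - f) u| = ‖(t • g - f) u‖ := rfl
      _ ≤ ‖t • g - f‖ * ‖u‖ := ContinuousLinearMap.le_opNorm _ _
      _ ≤ ε * 1 := by gcongr
      _ = ε := mul_one _
  have h4 : |(t • g) (s • x - u)| ≤ ε := by
    calc |(t • g) (s • x - u)| = ‖(t • g) (s • x - u)‖ := rfl
      _ ≤ ‖t • g‖ * ‖s • x - u‖ := ContinuousLinearMap.le_opNorm _ _
      _ ≤ 1 * ε := by
        gcongr
        rw [norm_smul, hg, mul_one]
        exact ht.le
      _ = ε := one_mul _
  have h5 : |t * s| = 1 := by rw [abs_mul, ht, hs, one_mul]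
  have h6 : 1 ≤ |f u| + 2 * ε := by
    calc (1 : ℝ) = |t * s| := h5.symm
      _ = |f u + (t • g - f) u + (t • g) (s • x - u)| := by rw [hfu]; congr 1; ring
      _ ≤ |f u + (t • g - f) u| + |(t • g) (s • x - u)| := abs_add_le _ _
      _ ≤ |f u| + |(t • g - f) u| + |(t • g) (s • x - u)| := by gcongr; exact abs_add_le _ _
      _ ≤ |f u| + ε + ε := by gcongr
      _ = _ := by ring
  linarith

end McG

end Pool.Agent.H.MP_d7d3dc_an
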