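import Pool.Agent.H.MP_d7d3dc_an.Structure

open Set Metric Module

namespace Pool.Agent.H.MP_d7d3dc_an

/-- The sign vector of a Boolean vector. -/
def sgn {m : ℕ} (s : Fin m → Bool) (k : Fin m) : ℝ := if s k then 1 else -1

/-- The body determined by a family of sign vectors. -/
def KBody {m : ℕ} (σ : Fin (m ^ 2) → Fin m → Bool) : Set (Fin m → ℝ) :=
  {x | ∀ a : Fin m → ℝ, (∀ i, |∑ k, a k * sgn (σ i) k| = 1) → |∑ k, a k * x k| ≤ 1}

variable {Y : Type} [NormedAddCommGroup Y] [NormedSpace ℝ Y] [FiniteDimensional ℝ Y]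

/-- Every space with numerical index one has a dual ball of the form `KBody σ`. -/
theorem exists_model [Nontrivial Y] (h : numIndex Y = 1) {m : ℕ} (hm : finrank ℝ Y = m) :
    ∃ (Ψ : (Fin m → ℝ) ≃ₗ[ℝ] StrongDual ℝ Y) (σ : Fin (m ^ 2) → Fin m → Bool),
      (∀ x, ‖Ψ x‖ ≤ 1 ↔ x ∈ KBody σ) ∧ (∀ x, ‖Ψ x‖ ≤ 1 → ∀ k, |x k| ≤ 1) ∧
      (∀ k, ‖Ψ (Pi.single k 1)‖ ≤ 1) := by
  classical
  obtain ⟨b, hbU, hbc⟩ := exists_auerbach h hm
  set U := (closedBall (0 : Y) 1).extremePoints ℝ with hU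
  set G := (closedBall (0 : StrongDual ℝ Y) 1).extremePoints ℝ with hG
  have hmpos : 0 < m := by rw [← hm]; exact finrank_pos
  have : NeZero m := ⟨hmpos.ne'⟩
  -- the linear equivalence
  set Ψ : (Fin m → ℝ) ≃ₗ[ℝ] StrongDual ℝ Y :=
    (b.constr ℝ (M' := ℝ)).trans (LinearMap.toContinuousLinearMap (𝕜 := ℝ) (E := Y) (F' := ℝ))
    with hΨ
  have hΨapp : ∀ (x : Fin m → ℝ) (y : Y), Ψ x y = ∑ k, b.repr y k * x k := by
    intro x y
    simp only [hΨ, LinearEquiv.trans_apply, LinearMap.coe_toContinuousLinearMap',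
      Basis.constr_apply_fintype, smul_eq_mul, Basis.equivFun_apply]
  have hΨb : ∀ (x : Fin m → ℝ) (k : Fin m), Ψ x (b k) = x k := by
    intro x k
    rw [hΨapp]
    simp [Finsupp.single_apply]
  -- sign vectors
  obtain ⟨g0, hg0⟩ : G.Nonempty := extreme_nonempty (X := StrongDual ℝ Y)
  have hsg : ∀ g ∈ G, ∃ s : Fin m → Bool, ∀ k, sgn s k = g (b k) := by
    intro g hg
    refine ⟨fun k => decide (0 < g (b k)), fun k => ?_⟩
    have h1 := abs_eq_one_of_extreme h (hbU k) hg
    rcases eq_or_eq_neg_of_abs_eq h1 with h2 | h2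
    · simp [sgn, h2]
    · simp only [sgn, h2]; norm_num
  choose! sg hsg using hsg
  set Q : (Fin m → ℝ) → (Fin m × Fin m → ℝ) := fun v p => v p.1 * v p.2 with hQ
  set W : Set (Fin m × Fin m → ℝ) := (fun g : StrongDual ℝ Y => Q (fun k => g (b k))) '' G with hW
  obtain ⟨f, hfW, hfspan, -⟩ := Submodule.exists_fun_fin_finrank_span_eq ℝ W
  have hD : finrank ℝ (Submodule.span ℝ W) ≤ m ^ 2 := by
    calc finrank ℝ (Submodule.span ℝ W) ≤ finrank ℝ (Fin m × Fin m → ℝ) := Submodule.finrank_le _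
      _ = m ^ 2 := by simp [pow_two]
  choose gi hgiG hgif using hfW
  set σ : Fin (m ^ 2) → Fin m → Bool := fun i =>
    if hi : i.1 < finrank ℝ (Submodule.span ℝ W) then sg (gi ⟨i.1, hi⟩) else sg g0 with hσ
  have hσG : ∀ i, ∃ g ∈ G, ∀ k, sgn (σ i) k = g (b k) := by
    intro i
    simp only [hσ]
    split_ifs with hi
    · exact ⟨_, hgiG _, hsg _ (hgiG _)⟩
    · exact ⟨_, hg0, hsg _ hg0⟩
  -- the key property
  have key : ∀ a : Fin m → ℝ, (∀ i, |∑ k, a k * sgn (σ i) k| = 1) →
      ∀ g ∈ G, |∑ k, a k * g (b k)| = 1 := by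
    intro a ha g hg
    set L : (Fin m × Fin m → ℝ) →ₗ[ℝ] ℝ :=
      { toFun := fun q => (∑ p : Fin m × Fin m, a p.1 * a p.2 * q p) - q (0, 0)
        map_add' := by
          intro x y
          simp only [Pi.add_apply, mul_add, Finset.sum_add_distrib]; ring
        map_smul' := by
          intro c x
          simp only [Pi.smul_apply, smul_eq_mul, RingHom.id_apply, mul_sub, Finset.mul_sum]
          congr 1
          apply Finset.sum_congr rfl
          intro p _; ring } with hL
    have hLQ : ∀ v : Fin m → ℝ, L (Q v) = (∑ k, a k * v k) ^ 2 - v 0 * v 0 := by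
      intro v
      simp only [hL, hQ, LinearMap.coe_mk, AddHom.coe_mk]
      congr 1
      rw [pow_two, Finset.sum_mul_sum, Fintype.sum_prod_type]
      apply Finset.sum_congr rfl
      intro i _
      apply Finset.sum_congr rfl
      intro j _
      ring
    have hG0 : ∀ g ∈ G, g (b 0) * g (b 0) = 1 := by
      intro g hg
      have h1 := abs_eq_one_of_extreme h (hbU 0) hg
      rw [← abs_mul_abs_self, h1, one_mul]
    have hLf : ∀ i, L (f i) = 0 := by
      intro i
      have h0 : L (f i) = (∑ k, a k * gi i (b k)) ^ 2 - gi i (b 0) * gi i (b 0) := by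
        rw [← hgif i]
        exact hLQ (fun k => gi i (b k))
      rw [h0, hG0 _ (hgiG i)]
      have h1 := ha ⟨i.1, lt_of_lt_of_le i.2 hD⟩
      have h2 : ∀ k, sgn (σ ⟨i.1, lt_of_lt_of_le i.2 hD⟩) k = gi i (b k) := by
        intro k
        simp only [hσ, i.2, dif_pos]
        exact hsg _ (hgiG i) k
      simp only [h2] at h1
      rw [← sq_abs, h1]; norm_num
    have hLW : ∀ q ∈ Submodule.span ℝ W, L q = 0 := by
      intro q hq
      rw [← hfspan] at hq
      induction hq using Submodule.span_induction with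
      | mem x hx =>
        obtain ⟨k, rfl⟩ := hx
        exact hLf k
      | zero => simp
      | add x y _ _ hx hy => rw [map_add, hx, hy, add_zero]
      | smul a x _ hx => rw [map_smul, hx, smul_zero]
    have h1 := (hLQ (fun k => g (b k))).symm.trans (hLW _ (Submodule.subset_span ⟨g, hg, rfl⟩))
    rw [hG0 _ hg] at h1
    have h2 : (∑ k, a k * g (b k)) ^ 2 = 1 := by linarith
    rw [← sq_abs] at h2
    exact (pow_eq_one_iff_of_nonneg (abs_nonneg _) two_ne_zero).1 h2
  refine ⟨Ψ, σ, ?_, ?_, ?_⟩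
  · intro x
    constructor
    · intro hx a ha
      set y : Y := ∑ k, a k • b k with hy
      have hy1 : ‖y‖ ≤ 1 := by
        apply norm_le_one_of_extreme_dual
        intro g hg
        have h1 := key a ha g hg
        rw [hy, map_sum]
        simp only [map_smul, smul_eq_mul]
        exact h1.le
      have h2 : Ψ x y = ∑ k, a k * x k := by
        rw [hy, map_sum]
        simp only [map_smul, smul_eq_mul, hΨb]
      rw [← h2]
      calc |Ψ x y| = ‖Ψ x y‖ := rfl
        _ ≤ ‖Ψ x‖ * ‖y‖ := (Ψ x).le_opNorm y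
        _ ≤ 1 * 1 := by gcongr
        _ = 1 := one_mul 1
    · intro hx
      apply norm_le_one_of_extreme
      intro u hu
      rw [hΨapp]
      apply hx
      intro i
      obtain ⟨g, hg, hgk⟩ := hσG i
      have h1 : ∑ k, b.repr u k * sgn (σ i) k = g u := by
        conv_rhs => rw [← b.sum_repr u]
        rw [map_sum]
        simp only [map_smul, smul_eq_mul, hgk]
      rw [h1]
      exact abs_eq_one_of_extreme h hu hg
  · intro x hx k
    rw [← hΨb x k]
    have h1 : ‖b k‖ ≤ 1 := by simpa using (hbU k).1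
    calc |Ψ x (b k)| = ‖Ψ x (b k)‖ := rfl
      _ ≤ ‖Ψ x‖ * ‖b k‖ := (Ψ x).le_opNorm _
      _ ≤ 1 * 1 := by gcongr
      _ = 1 := one_mul 1
  · intro k
    apply norm_le_one_of_extreme
    intro u hu
    rw [hΨapp]
    have : ∑ j, b.repr u j * (Pi.single k 1 : Fin m → ℝ) j = b.repr u k := by
      simp [Pi.single_apply]
    rw [this]
    exact hbc u hu k

end Pool.Agent.H.MP_d7d3dc_an
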