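import Pool.Agent.H.MP_d7d3dc_an.McGregor

open Set Metric Module

namespace Pool.Agent.H.MP_d7d3dc_an

section KM

variable {X : Type} [NormedAddCommGroup X] [NormedSpace ℝ X] [FiniteDimensional ℝ X]

/-- A functional bounded by `c` on the extreme points of the unit ball is bounded by `c` on the
ball. -/
theorem abs_le_of_extreme (φ : StrongDual ℝ X) {c : ℝ}
    (h : ∀ u ∈ (closedBall (0 : X) 1).extremePoints ℝ, |φ u| ≤ c) {x : X} (hx : ‖x‖ ≤ 1) :
    |φ x| ≤ c := by
  have hkm := closure_convexHull_extremePoints (isCompact_closedBall (0 : X) 1)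
    (convex_closedBall (0 : X) 1)
  have hxm : x ∈ closure (convexHull ℝ ((closedBall (0 : X) 1).extremePoints ℝ)) := by
    rw [hkm]; simpa using hx
  have hsub : closure (convexHull ℝ ((closedBall (0 : X) 1).extremePoints ℝ)) ⊆
      {y : X | |φ y| ≤ c} := by
    apply closure_minimal
    · apply convexHull_min
      · intro u hu; exact h u hu
      · have : {y : X | |φ y| ≤ c} = φ ⁻¹' (Icc (-c) c) := by
          ext y; simp [abs_le]
        rw [this]
        exact (convex_Icc (-c) c).linear_preimage φ.toLinearMap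
    · exact isClosed_le (continuous_abs.comp φ.continuous) continuous_const
  exact hsub hxm

/-- The extreme points of the unit ball span the space. -/
theorem span_extreme : Submodule.span ℝ ((closedBall (0 : X) 1).extremePoints ℝ) = ⊤ := by
  rw [eq_top_iff]
  intro x _
  have hkm := closure_convexHull_extremePoints (isCompact_closedBall (0 : X) 1)
    (convex_closedBall (0 : X) 1)
  have hcl : IsClosed ((Submodule.span ℝ ((closedBall (0 : X) 1).extremePoints ℝ)) : Set X) :=
    Submodule.closed_of_finiteDimensional _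
  have hsub : closedBall (0 : X) 1 ⊆ Submodule.span ℝ ((closedBall (0 : X) 1).extremePoints ℝ) :=
    calc closedBall (0 : X) 1 = closure (convexHull ℝ ((closedBall (0 : X) 1).extremePoints ℝ)) :=
          hkm.symm
      _ ⊆ _ := closure_minimal (convexHull_min Submodule.subset_span (Submodule.convex _)) hcl
  by_cases hx : x = 0
  · rw [hx]; exact Submodule.zero_mem _
  · have hn : 0 < ‖x‖ := norm_pos_iff.2 hx
    have h1 : (‖x‖⁻¹ • x) ∈ closedBall (0 : X) 1 := by
      simp only [mem_closedBall, dist_zero_right, norm_smul, norm_inv, norm_norm]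
      rw [inv_mul_cancel₀ hn.ne']
    have h2 := Submodule.smul_mem _ ‖x‖ (hsub h1)
    rwa [smul_smul, mul_inv_cancel₀ hn.ne', one_smul] at h2

theorem extreme_nonempty : ((closedBall (0 : X) 1).extremePoints ℝ).Nonempty :=
  (isCompact_closedBall (0 : X) 1).extremePoints_nonempty ⟨0, by simp⟩

/-- The norm of a vector is determined by the extreme points of the dual ball. -/
theorem norm_le_one_of_extreme_dual {y : X}
    (h : ∀ g ∈ (closedBall (0 : StrongDual ℝ X) 1).extremePoints ℝ, |g y| ≤ 1) : ‖y‖ ≤ 1 := by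
  obtain ⟨g, hg, hgy⟩ := exists_dual_vector'' ℝ y
  have h1 := abs_le_of_extreme (X := StrongDual ℝ X)
    (NormedSpace.inclusionInDoubleDual ℝ X y) (c := 1) (fun g hg => h g hg) hg
  have h2 : (NormedSpace.inclusionInDoubleDual ℝ X y) g = g y := rfl
  rw [h2, hgy] at h1
  simpa using h1

theorem norm_le_one_of_extreme {g : StrongDual ℝ X}
    (h : ∀ u ∈ (closedBall (0 : X) 1).extremePoints ℝ, |g u| ≤ 1) : ‖g‖ ≤ 1 := by
  refine ContinuousLinearMap.opNorm_le_of_unit_norm zero_le_one ?_
  intro x hx
  exact abs_le_of_extreme g h hx.le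

end KM

section Basis

variable {Y : Type} [NormedAddCommGroup Y] [NormedSpace ℝ Y] [FiniteDimensional ℝ Y]

/-- A basis whose members lie in a given spanning set. -/
theorem exists_basis_mem {V : Type*} [AddCommGroup V] [Module ℝ V] [FiniteDimensional ℝ V]
    {m : ℕ} (hm : finrank ℝ V = m) {s : Set V} (hs : Submodule.span ℝ s = ⊤) :
    ∃ b : Basis (Fin m) ℝ V, ∀ i, b i ∈ s := by
  obtain ⟨f, hf, hspan, hli⟩ := Submodule.exists_fun_fin_finrank_span_eq ℝ s
  have hfr : finrank ℝ (Submodule.span ℝ s) = m := by rw [hs, finrank_top, hm]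
  set b := Basis.mk hli (by rw [hspan, hs])
  refine ⟨b.reindex (finCongr hfr), fun i => ?_⟩
  simp only [Basis.reindex_apply, b, Basis.mk_apply]
  exact hf _

theorem finite_extreme [Nontrivial Y] (h : numIndex Y = 1) :
    ((closedBall (0 : Y) 1).extremePoints ℝ).Finite := by
  obtain ⟨g, hg⟩ := exists_basis_mem (V := StrongDual ℝ Y) rfl
    (span_extreme (X := StrongDual ℝ Y))
  have hfin : (Set.pi univ (fun _ : Fin (finrank ℝ (StrongDual ℝ Y)) => ({1, -1} : Set ℝ))).Finite :=
    Set.Finite.pi (fun _ => Set.toFinite _)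
  refine Set.Finite.of_injOn (f := fun u k => g k u) (t := _) ?_ ?_ hfin
  · intro u hu k _
    have := abs_eq_one_of_extreme h hu (hg k)
    rcases eq_or_eq_neg_of_abs_eq this with h1 | h1
    · left; exact h1
    · right; exact h1
  · intro u _ v _ huv
    have h1 : ∀ f : StrongDual ℝ Y, f u = f v := by
      intro f
      have h2 : f ∈ Submodule.span ℝ (Set.range g) := by rw [g.span_eq]; trivial
      induction h2 using Submodule.span_induction with
      | mem x hx =>
        obtain ⟨k, rfl⟩ := hx
        exact congrFun huv k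
      | zero => rfl
      | add x y _ _ hx hy => simp [hx, hy]
      | smul a x _ hx => simp [hx]
    exact (SeparatingDual.eq_iff_forall_dual_eq (R := ℝ)).2 h1

/-- An Auerbach type basis consisting of extreme points. -/
theorem exists_auerbach [Nontrivial Y] (h : numIndex Y = 1) {m : ℕ} (hm : finrank ℝ Y = m) :
    ∃ b : Basis (Fin m) ℝ Y, (∀ i, b i ∈ (closedBall (0 : Y) 1).extremePoints ℝ) ∧
      ∀ u ∈ (closedBall (0 : Y) 1).extremePoints ℝ, ∀ i, |b.repr u i| ≤ 1 := by
  set U := (closedBall (0 : Y) 1).extremePoints ℝ with hU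
  obtain ⟨b0, hb0⟩ := exists_basis_mem hm (span_extreme (X := Y))
  have hfin : (Set.pi univ (fun _ : Fin m => U)).Finite :=
    Set.Finite.pi (fun _ => finite_extreme h)
  obtain ⟨v, hv, hmax⟩ := Set.exists_max_image (Set.pi univ (fun _ : Fin m => U))
    (fun v => |b0.det v|) hfin ⟨b0, fun i _ => hb0 i⟩
  have hdet1 : 1 ≤ |b0.det v| := by
    have := hmax b0 (fun i _ => hb0 i)
    simpa [b0.det_self] using this
  have hdet0 : b0.det v ≠ 0 := by
    intro h0; rw [h0, abs_zero] at hdet1; linarith
  obtain ⟨hli, hsp⟩ := (b0.is_basis_iff_det).2 (isUnit_iff_ne_zero.2 hdet0)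
  refine ⟨Basis.mk hli hsp.ge, ?_, ?_⟩
  · intro i; rw [Basis.mk_apply]; exact hv i (mem_univ i)
  · intro u hu i
    have h1 := b0.det_smul_mk_coord_eq_det_update hli hsp.ge i
    have h2 := congrArg (fun L => L u) h1
    simp only [LinearMap.smul_apply, Basis.coord_apply, MultilinearMap.toLinearMap_apply,
      smul_eq_mul] at h2
    have h3 : |b0.det (Function.update v i u)| ≤ |b0.det v| := by
      apply hmax
      intro j _
      by_cases hj : j = i
      · subst hj; simpa using hu
      · rw [Function.update_of_ne hj]; exact hv j (mem_univ j)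
    have h4 : |b0.det v| * |(Basis.mk hli hsp.ge).repr u i| ≤ |b0.det v| * 1 := by
      rw [← abs_mul, mul_one, h2]
      exact h3
    exact le_of_mul_le_mul_left h4 (lt_of_lt_of_le one_pos hdet1)

end Basis

end Pool.Agent.H.MP_d7d3dc_an
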